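import Pool.Agent.V1186.Mag.Two

set_option autoImplicit false

/-!
The commutator inequality `∫ |(-i∇-A)φ|² ≥ b ∫ |φ|²` for test functions supported in the region
where the field is `b`.
-/

namespace Pool.Agent.V1186.Mag

open MeasureTheory Set Metric
open scoped ContDiff

/-- `(A₁, A₂)` is a continuous vector potential with `curl A = b 1_W` in `Ω`, in the sense of
distributions. -/
structure IsPotential (Ω W : Set ℂ) (b : ℝ) (A₁ A₂ : ℂ → ℝ) : Prop where
  cont₁ : Continuous A₁
  cont₂ : Continuous A₂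
  curl : ∀ φ : ℂ → ℝ, ContDiff ℝ ∞ φ → HasCompactSupport φ → tsupport φ ⊆ Ω →
    ∫ z, (A₁ z * fderiv ℝ φ z Complex.I - A₂ z * fderiv ℝ φ z 1) = b * ∫ z in W, φ z

theorem smooth_fderiv_apply {p : ℂ → ℝ} (hp : ContDiff ℝ ∞ p) (v : ℂ) :
    ContDiff ℝ ∞ (fun z => fderiv ℝ p z v) := by
  have h : ContDiff ℝ ∞ (fderiv ℝ p) := hp.fderiv_right (by simp)
  exact h.clm_apply contDiff_const

theorem cpt_fderiv_apply {p : ℂ → ℝ} (hc : HasCompactSupport p) (v : ℂ) :
    HasCompactSupport (fun z => fderiv ℝ p z v) := hc.fderiv_apply (𝕜 := ℝ) v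

theorem null_lagrangian {p q : ℂ → ℝ} (hp : ContDiff ℝ ∞ p) (hq : ContDiff ℝ ∞ q)
    (hpc : HasCompactSupport p) (hqc : HasCompactSupport q) (v w : ℂ) :
    ∫ z, (fderiv ℝ q z v * fderiv ℝ p z w - fderiv ℝ p z v * fderiv ℝ q z w) = 0 := by
  have hpv := smooth_fderiv_apply hp v
  have hpw := smooth_fderiv_apply hp w
  have hqv := smooth_fderiv_apply hq v
  have hqw := smooth_fderiv_apply hq w
  have ne : (∞ : ℕ∞ω) ≠ 0 := by simp
  have i1 : Integrable (fun z => fderiv ℝ q z v * fderiv ℝ p z w) :=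
    (hqv.continuous.mul hpw.continuous).integrable_of_hasCompactSupport
      ((cpt_fderiv_apply hqc v).mul_right)
  have i2 : Integrable (fun z => fderiv ℝ p z v * fderiv ℝ q z w) :=
    (hpv.continuous.mul hqw.continuous).integrable_of_hasCompactSupport
      ((cpt_fderiv_apply hpc v).mul_right)
  rw [integral_sub i1 i2]
  -- first term
  have a1 : ∫ z, fderiv ℝ p z w * fderiv ℝ q z v =
      - ∫ z, fderiv ℝ (fun z => fderiv ℝ p z w) z v * q z := by
    apply integral_mul_fderiv_eq_neg_fderiv_mul_of_integrable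
    · exact ((smooth_fderiv_apply hpw v).continuous.mul
        hq.continuous).integrable_of_hasCompactSupport hqc.mul_left
    · exact (hpw.continuous.mul hqv.continuous).integrable_of_hasCompactSupport
        ((cpt_fderiv_apply hqc v).mul_left)
    · exact (hpw.continuous.mul hq.continuous).integrable_of_hasCompactSupport hqc.mul_left
    · exact fun x _ => (hpw.differentiable ne) x
    · exact fun x _ => (hq.differentiable ne) x
  have a2 : ∫ z, fderiv ℝ p z v * fderiv ℝ q z w =
      - ∫ z, fderiv ℝ (fun z => fderiv ℝ p z v) z w * q z := by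
    apply integral_mul_fderiv_eq_neg_fderiv_mul_of_integrable
    · exact ((smooth_fderiv_apply hpv w).continuous.mul
        hq.continuous).integrable_of_hasCompactSupport hqc.mul_left
    · exact (hpv.continuous.mul hqw.continuous).integrable_of_hasCompactSupport
        ((cpt_fderiv_apply hqc w).mul_left)
    · exact (hpv.continuous.mul hq.continuous).integrable_of_hasCompactSupport hqc.mul_left
    · exact fun x _ => (hpv.differentiable ne) x
    · exact fun x _ => (hq.differentiable ne) x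
  have a3 : ∫ z, fderiv ℝ q z v * fderiv ℝ p z w = ∫ z, fderiv ℝ p z w * fderiv ℝ q z v := by
    congr 1; ext z; ring
  rw [a3, a1, a2]
  have a4 : ∀ z, fderiv ℝ (fun z => fderiv ℝ p z w) z v = fderiv ℝ (fun z => fderiv ℝ p z v) z w := by
    intro z
    have hd : DifferentiableAt ℝ (fderiv ℝ p) z :=
      ((hp.fderiv_right (m := ∞) (by simp)).differentiable ne) z
    have e1 : ∀ v' : ℂ, fderiv ℝ (fun z => fderiv ℝ p z v') z = (fderiv ℝ (fderiv ℝ p) z).flip v' := by
      intro v'
      have := (hd.hasFDerivAt.clm_apply (hasFDerivAt_const v' z)).fderiv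
      rw [this]
      ext
      simp
    rw [e1, e1]
    simp only [ContinuousLinearMap.flip_apply]
    exact (hp.contDiffAt.isSymmSndFDerivAt (by
      simp only [minSmoothness_of_isRCLikeNormedField]
      exact ENat.LEInfty.out)) v w
  simp only [a4]
  ring

theorem comm_ineq {Ω W : Set ℂ} {b : ℝ} {A₁ A₂ : ℂ → ℝ} (hP : IsPotential Ω W b A₁ A₂)
    (hW : MeasurableSet W) (hWΩ : W ⊆ Ω) {φ : ℂ → ℂ} (hφ : ContDiff ℝ ∞ φ)
    (hc : HasCompactSupport φ) (hs : tsupport φ ⊆ W) :
    b * ∫ z, ‖φ z‖ ^ 2 ≤ ∫ z, (‖D1 A₁ φ z‖ ^ 2 + ‖D2 A₂ φ z‖ ^ 2) := by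
  have ne : (∞ : ℕ∞ω) ≠ 0 := by simp
  set p : ℂ → ℝ := fun z => (φ z).re with hp
  set q : ℂ → ℝ := fun z => (φ z).im with hq
  have hps : ContDiff ℝ ∞ p := Complex.reCLM.contDiff.comp hφ
  have hqs : ContDiff ℝ ∞ q := Complex.imCLM.contDiff.comp hφ
  have hpc : HasCompactSupport p := hc.comp_left (g := Complex.re) rfl
  have hqc : HasCompactSupport q := hc.comp_left (g := Complex.im) rfl
  set ψ : ℂ → ℝ := fun z => p z ^ 2 + q z ^ 2 with hψ
  have hψs : ContDiff ℝ ∞ ψ := (hps.pow 2).add (hqs.pow 2)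
  have hψφ : ∀ z, ψ z = ‖φ z‖ ^ 2 := by
    intro z
    rw [Complex.sq_norm, Complex.normSq_apply, hψ]
    simp only [hp, hq]; ring
  have hψsupp : Function.support ψ ⊆ Function.support φ := by
    intro z hz h0
    apply hz
    rw [hψφ, h0]; simp
  have hψc : HasCompactSupport ψ := hc.mono hψsupp
  have hψt : tsupport ψ ⊆ W := (closure_mono hψsupp).trans hs
  have hcurl := hP.curl ψ hψs hψc (hψt.trans hWΩ)
  have hint : ∫ z in W, ψ z = ∫ z, ‖φ z‖ ^ 2 := by
    simp only [← hψφ]
    exact setIntegral_eq_integral_of_forall_compl_eq_zero fun z hz =>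
      image_eq_zero_of_notMem_tsupport fun h => hz (hψt h)
  rw [hint] at hcurl
  have hnull := null_lagrangian hps hqs hpc hqc 1 Complex.I
  -- derivatives
  have hφd : ∀ z, DifferentiableAt ℝ φ z := fun z => (hφ.differentiable ne) z
  have dp : ∀ z v, fderiv ℝ p z v = (fderiv ℝ φ z v).re := by
    intro z v
    have : HasFDerivAt p (Complex.reCLM.comp (fderiv ℝ φ z)) z :=
      Complex.reCLM.hasFDerivAt.comp z (hφd z).hasFDerivAt
    rw [this.fderiv]; rfl
  have dq : ∀ z v, fderiv ℝ q z v = (fderiv ℝ φ z v).im := by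
    intro z v
    have : HasFDerivAt q (Complex.imCLM.comp (fderiv ℝ φ z)) z :=
      Complex.imCLM.hasFDerivAt.comp z (hφd z).hasFDerivAt
    rw [this.fderiv]; rfl
  have dψ : ∀ z v, fderiv ℝ ψ z v = 2 * p z * fderiv ℝ p z v + 2 * q z * fderiv ℝ q z v := by
    intro z v
    have h1 := ((hps.differentiable ne) z).hasFDerivAt
    have h2 := ((hqs.differentiable ne) z).hasFDerivAt
    have := (h1.pow 2).add (h2.pow 2)
    have h3 : HasFDerivAt ψ _ z := this
    rw [h3.fderiv]
    simp
  -- integrability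
  have c1 : Continuous (D1 A₁ φ) := by
    unfold D1 dx
    have h1 : Continuous fun z => fderiv ℝ φ z 1 :=
      (hφ.continuous_fderiv ne).clm_apply continuous_const
    exact (continuous_const.mul h1).sub
      ((Complex.continuous_ofReal.comp hP.cont₁).mul hφ.continuous)
  have c2 : Continuous (D2 A₂ φ) := by
    unfold D2 dy
    have h1 : Continuous fun z => fderiv ℝ φ z Complex.I :=
      (hφ.continuous_fderiv ne).clm_apply continuous_const
    exact (continuous_const.mul h1).sub
      ((Complex.continuous_ofReal.comp hP.cont₂).mul hφ.continuous)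
  have s1 : HasCompactSupport (D1 A₁ φ) := by
    unfold D1 dx
    exact (HasCompactSupport.mul_left (hc.fderiv_apply (𝕜 := ℝ) 1)).sub hc.mul_left
  have s2 : HasCompactSupport (D2 A₂ φ) := by
    unfold D2 dy
    exact (HasCompactSupport.mul_left (hc.fderiv_apply (𝕜 := ℝ) Complex.I)).sub hc.mul_left
  have iE : Integrable (fun z => ‖D1 A₁ φ z‖ ^ 2 + ‖D2 A₂ φ z‖ ^ 2) := by
    apply Integrable.add
    · apply (c1.norm.pow 2).integrable_of_hasCompactSupport
      exact s1.norm.comp_left (g := fun t : ℝ => t ^ 2) (by simp)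
    · apply (c2.norm.pow 2).integrable_of_hasCompactSupport
      exact s2.norm.comp_left (g := fun t : ℝ => t ^ 2) (by simp)
  have iN : Integrable (fun z => fderiv ℝ q z 1 * fderiv ℝ p z Complex.I -
      fderiv ℝ p z 1 * fderiv ℝ q z Complex.I) := by
    apply Integrable.sub
    · exact ((smooth_fderiv_apply hqs 1).continuous.mul
        (smooth_fderiv_apply hps Complex.I).continuous).integrable_of_hasCompactSupport
        ((cpt_fderiv_apply hqc 1).mul_right)
    · exact ((smooth_fderiv_apply hps 1).continuous.mul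
        (smooth_fderiv_apply hqs Complex.I).continuous).integrable_of_hasCompactSupport
        ((cpt_fderiv_apply hpc 1).mul_right)
  have iC : Integrable (fun z => A₁ z * fderiv ℝ ψ z Complex.I - A₂ z * fderiv ℝ ψ z 1) := by
    apply Integrable.sub
    · exact (hP.cont₁.mul (smooth_fderiv_apply hψs _).continuous).integrable_of_hasCompactSupport
        (cpt_fderiv_apply hψc _).mul_left
    · exact (hP.cont₂.mul (smooth_fderiv_apply hψs _).continuous).integrable_of_hasCompactSupport
        (cpt_fderiv_apply hψc _).mul_left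
  have hpt : ∀ z, 0 ≤ (‖D1 A₁ φ z‖ ^ 2 + ‖D2 A₂ φ z‖ ^ 2) +
      2 * (fderiv ℝ q z 1 * fderiv ℝ p z Complex.I - fderiv ℝ p z 1 * fderiv ℝ q z Complex.I) -
      (A₁ z * fderiv ℝ ψ z Complex.I - A₂ z * fderiv ℝ ψ z 1) := by
    intro z
    have h0 : 0 ≤ ‖D1 A₁ φ z + Complex.I * D2 A₂ φ z‖ ^ 2 := by positivity
    refine h0.trans (le_of_eq ?_)
    rw [Complex.sq_norm, Complex.sq_norm, Complex.sq_norm, Complex.normSq_apply,
      Complex.normSq_apply, Complex.normSq_apply, dψ, dψ, dp, dq, dp, dq]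
    simp only [D1, D2, dx, dy, hp, hq]
    set fx := fderiv ℝ φ z 1
    set fy := fderiv ℝ φ z Complex.I
    simp only [Complex.add_re, Complex.add_im, Complex.sub_re, Complex.sub_im, Complex.mul_re,
      Complex.mul_im, Complex.neg_re, Complex.neg_im, Complex.I_re, Complex.I_im,
      Complex.ofReal_re, Complex.ofReal_im]
    ring
  have hI2 : 0 ≤ (∫ z, (‖D1 A₁ φ z‖ ^ 2 + ‖D2 A₂ φ z‖ ^ 2)) +
      2 * (∫ z, (fderiv ℝ q z 1 * fderiv ℝ p z Complex.I -
        fderiv ℝ p z 1 * fderiv ℝ q z Complex.I)) -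
      ∫ z, (A₁ z * fderiv ℝ ψ z Complex.I - A₂ z * fderiv ℝ ψ z 1) := by
    rw [← integral_const_mul, ← integral_add iE (iN.const_mul 2), ← integral_sub _ iC]
    · exact integral_nonneg fun z => hpt z
    · exact iE.add (iN.const_mul 2)
  rw [hnull, hcurl] at hI2
  linarith

end Pool.Agent.V1186.Mag
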