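import Pool.Agent.V1186.Mag.Comm

set_option autoImplicit false

/-!
The radial vector potential of a constant field in a disk.
-/

namespace Pool.Agent.V1186.Mag

open MeasureTheory Set Metric Filter Topology
open scoped ContDiff NNReal

noncomputable def mm (R : ℝ) (z : ℂ) : ℝ := max (R ^ 2) (‖z‖ ^ 2)

theorem mm_ge (R : ℝ) (z : ℂ) : R ^ 2 ≤ mm R z := le_max_left _ _
theorem mm_ge' (R : ℝ) (z : ℂ) : ‖z‖ ^ 2 ≤ mm R z := le_max_right _ _
theorem mm_cont (R : ℝ) : Continuous (mm R) := by unfold mm; fun_prop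
theorem mm_pos {R : ℝ} (hR : 0 < R) (z : ℂ) : 0 < mm R z := (by positivity : 0 < R ^ 2).trans_le (mm_ge R z)

/-- the vector field `z / max (R², |z|²)` -/
noncomputable def FF (R : ℝ) (z : ℂ) : ℂ := ((mm R z)⁻¹ : ℝ) * z

theorem FF_lip {R : ℝ} (hR : 0 < R) (z w : ℂ) : ‖FF R z - FF R w‖ ≤ 3 / R ^ 2 * ‖z - w‖ := by
  have hz := mm_pos hR z
  have hw := mm_pos hR w
  have e1 : FF R z - FF R w = ((mm R z)⁻¹ : ℝ) * (z - w) +
      (((mm R w - mm R z) / (mm R z * mm R w) : ℝ) : ℂ) * w := by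
    unfold FF
    have : (mm R z)⁻¹ - (mm R w)⁻¹ = (mm R w - mm R z) / (mm R z * mm R w) := by
      field_simp
    rw [← this]
    push_cast
    ring
  have e2 : |mm R w - mm R z| ≤ ‖z - w‖ * (‖w‖ + ‖z‖) := by
    have h1 : |mm R w - mm R z| ≤ |‖w‖ ^ 2 - ‖z‖ ^ 2| := by
      unfold mm
      have := abs_max_sub_max_le_max (R ^ 2) (‖w‖ ^ 2) (R ^ 2) (‖z‖ ^ 2)
      simpa using this
    have h2 : |‖w‖ ^ 2 - ‖z‖ ^ 2| = |‖w‖ - ‖z‖| * (‖w‖ + ‖z‖) := by
      rw [sq_sub_sq, abs_mul, mul_comm, abs_of_nonneg (show 0 ≤ ‖w‖ + ‖z‖ by positivity)]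
    rw [h2] at h1
    refine h1.trans (mul_le_mul_of_nonneg_right ?_ (by positivity))
    rw [norm_sub_rev z w]
    exact abs_norm_sub_norm_le w z
  have hR2 : 0 < R ^ 2 := by positivity
  have i1 : (mm R z)⁻¹ ≤ 1 / R ^ 2 := by
    rw [one_div]; exact inv_anti₀ hR2 (mm_ge R z)
  have i2 : (mm R w)⁻¹ ≤ 1 / R ^ 2 := by
    rw [one_div]; exact inv_anti₀ hR2 (mm_ge R w)
  have e3 : |mm R w - mm R z| / (mm R z * mm R w) * ‖w‖ ≤ ‖z - w‖ * (2 / R ^ 2) := by
    have h3 : ‖w‖ * (‖w‖ + ‖z‖) ≤ mm R w + (mm R w + mm R z) / 2 := by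
      have a1 := mm_ge' R w
      have a2 := mm_ge' R z
      nlinarith [sq_nonneg (‖w‖ - ‖z‖)]
    have h4 : (mm R w + (mm R w + mm R z) / 2) / (mm R z * mm R w) ≤ 2 / R ^ 2 := by
      have : (mm R w + (mm R w + mm R z) / 2) / (mm R z * mm R w) =
          (mm R z)⁻¹ + ((mm R z)⁻¹ + (mm R w)⁻¹) / 2 := by
        field_simp
        try ring
      rw [this]
      have : 2 / R ^ 2 = 1 / R ^ 2 + (1 / R ^ 2 + 1 / R ^ 2) / 2 := by ring
      rw [this]
      linarith
    calc |mm R w - mm R z| / (mm R z * mm R w) * ‖w‖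
        ≤ (‖z - w‖ * (‖w‖ + ‖z‖)) / (mm R z * mm R w) * ‖w‖ := by gcongr
      _ = ‖z - w‖ * ((‖w‖ * (‖w‖ + ‖z‖)) / (mm R z * mm R w)) := by ring
      _ ≤ ‖z - w‖ * ((mm R w + (mm R w + mm R z) / 2) / (mm R z * mm R w)) := by gcongr
      _ ≤ _ := by gcongr
  rw [e1]
  refine (norm_add_le _ _).trans ?_
  rw [norm_mul, norm_mul, Complex.norm_real, Complex.norm_real, Real.norm_eq_abs, Real.norm_eq_abs,
    abs_of_pos (inv_pos.2 hz), abs_div, abs_of_pos (mul_pos hz hw)]
  calc (mm R z)⁻¹ * ‖z - w‖ + |mm R w - mm R z| / (mm R z * mm R w) * ‖w‖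
      ≤ 1 / R ^ 2 * ‖z - w‖ + ‖z - w‖ * (2 / R ^ 2) := by gcongr
    _ = _ := by ring

theorem re_lip {R : ℝ} (hR : 0 < R) :
    LipschitzWith (Real.toNNReal (3 / R ^ 2)) (fun z => (FF R z).re) := by
  apply LipschitzWith.of_dist_le_mul
  intro z w
  rw [Real.dist_eq, Complex.dist_eq, Real.coe_toNNReal _ (by positivity)]
  refine le_trans ?_ (FF_lip hR z w)
  rw [← Complex.sub_re]
  exact Complex.abs_re_le_norm _

theorem im_lip {R : ℝ} (hR : 0 < R) :
    LipschitzWith (Real.toNNReal (3 / R ^ 2)) (fun z => (FF R z).im) := by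
  apply LipschitzWith.of_dist_le_mul
  intro z w
  rw [Real.dist_eq, Complex.dist_eq, Real.coe_toNNReal _ (by positivity)]
  refine le_trans ?_ (FF_lip hR z w)
  rw [← Complex.sub_im]
  exact Complex.abs_im_le_norm _

theorem ld_in {R : ℝ} (hR : 0 < R) {z : ℂ} (hz : ‖z‖ < R) :
    lineDeriv ℝ (fun z => (FF R z).re) z 1 + lineDeriv ℝ (fun z => (FF R z).im) z Complex.I =
      2 / R ^ 2 := by
  have hev : ∀ᶠ w in 𝓝 z, mm R w = R ^ 2 := by
    have : ∀ᶠ w in 𝓝 z, ‖w‖ < R := continuous_norm.continuousAt.eventually_lt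
      continuousAt_const hz
    filter_upwards [this] with w hw
    exact max_eq_left (pow_le_pow_left₀ (norm_nonneg _) hw.le 2)
  have h1 : HasFDerivAt (fun z => (FF R z).re) ((R ^ 2)⁻¹ • Complex.reCLM) z := by
    have : HasFDerivAt (fun z : ℂ => (R ^ 2)⁻¹ * z.re) ((R ^ 2)⁻¹ • Complex.reCLM) z :=
      Complex.reCLM.hasFDerivAt.const_mul _
    refine this.congr_of_eventuallyEq ?_
    filter_upwards [hev] with w hw
    simp only [FF, hw, Complex.re_ofReal_mul]
  have h2 : HasFDerivAt (fun z => (FF R z).im) ((R ^ 2)⁻¹ • Complex.imCLM) z := by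
    have : HasFDerivAt (fun z : ℂ => (R ^ 2)⁻¹ * z.im) ((R ^ 2)⁻¹ • Complex.imCLM) z :=
      Complex.imCLM.hasFDerivAt.const_mul _
    refine this.congr_of_eventuallyEq ?_
    filter_upwards [hev] with w hw
    simp only [FF, hw, Complex.im_ofReal_mul]
  rw [(h1.hasLineDerivAt 1).lineDeriv, (h2.hasLineDerivAt Complex.I).lineDeriv]
  simp
  ring

theorem ld_out {R : ℝ} (hR : 0 < R) {z : ℂ} (hz : R < ‖z‖) :
    lineDeriv ℝ (fun z => (FF R z).re) z 1 + lineDeriv ℝ (fun z => (FF R z).im) z Complex.I = 0 := by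
  have hev : ∀ᶠ w in 𝓝 z, mm R w = Complex.normSq w := by
    have : ∀ᶠ w in 𝓝 z, R < ‖w‖ := continuousAt_const.eventually_lt
      continuous_norm.continuousAt hz
    filter_upwards [this] with w hw
    rw [Complex.normSq_eq_norm_sq]
    exact max_eq_right (pow_le_pow_left₀ hR.le hw.le 2)
  have hD : Complex.normSq z ≠ 0 := by
    rw [Complex.normSq_eq_norm_sq]
    have : 0 < ‖z‖ := hR.trans hz
    positivity
  have hns : HasFDerivAt (fun w : ℂ => Complex.normSq w)
      ((2 * z.re) • Complex.reCLM + (2 * z.im) • Complex.imCLM) z := by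
    have h1 : HasFDerivAt (fun w : ℂ => w.re ^ 2 + w.im ^ 2)
        ((2 * z.re) • Complex.reCLM + (2 * z.im) • Complex.imCLM) z := by
      have a1 := (Complex.reCLM.hasFDerivAt (x := z)).pow 2
      have a2 := (Complex.imCLM.hasFDerivAt (x := z)).pow 2
      have a3 := a1.add a2
      refine (a3.congr_fderiv ?_)
      ext <;> simp
    have e : (fun w : ℂ => Complex.normSq w) = fun w : ℂ => w.re ^ 2 + w.im ^ 2 := by
      ext w; rw [Complex.normSq_apply]; ring
    rw [e]; exact h1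
  have hinv : HasFDerivAt (fun w : ℂ => (Complex.normSq w)⁻¹)
      ((-(Complex.normSq z ^ 2)⁻¹) • ((2 * z.re) • Complex.reCLM + (2 * z.im) • Complex.imCLM)) z :=
    (hasDerivAt_inv hD).comp_hasFDerivAt z hns
  have h1 : HasFDerivAt (fun z => (FF R z).re)
      ((Complex.normSq z)⁻¹ • Complex.reCLM + z.re • ((-(Complex.normSq z ^ 2)⁻¹) •
        ((2 * z.re) • Complex.reCLM + (2 * z.im) • Complex.imCLM))) z := by
    have := hinv.mul (Complex.reCLM.hasFDerivAt (x := z))
    refine HasFDerivAt.congr_of_eventuallyEq this ?_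
    filter_upwards [hev] with w hw
    simp only [FF, hw, Complex.re_ofReal_mul]
    rfl
  have h2 : HasFDerivAt (fun z => (FF R z).im)
      ((Complex.normSq z)⁻¹ • Complex.imCLM + z.im • ((-(Complex.normSq z ^ 2)⁻¹) •
        ((2 * z.re) • Complex.reCLM + (2 * z.im) • Complex.imCLM))) z := by
    have := hinv.mul (Complex.imCLM.hasFDerivAt (x := z))
    refine HasFDerivAt.congr_of_eventuallyEq this ?_
    filter_upwards [hev] with w hw
    simp only [FF, hw, Complex.im_ofReal_mul]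
    rfl
  rw [(h1.hasLineDerivAt 1).lineDeriv, (h2.hasLineDerivAt Complex.I).lineDeriv]
  simp
  have h3 : Complex.normSq z = z.re ^ 2 + z.im ^ 2 := by rw [Complex.normSq_apply]; ring
  rw [h3] at hD ⊢
  field_simp
  ring

theorem pot_disk {R Φ : ℝ} (hR : 0 < R) (Ω : Set ℂ) :
    IsPotential Ω (ball 0 R) (2 * Φ / R ^ 2) (fun z => -Φ * (FF R z).im)
      (fun z => Φ * (FF R z).re) := by
  have c1 : Continuous (fun z => (FF R z).re) := (re_lip hR).continuous
  have c2 : Continuous (fun z => (FF R z).im) := (im_lip hR).continuous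
  refine ⟨continuous_const.mul c2, continuous_const.mul c1, fun φ hφ hc _ => ?_⟩
  have ne : (∞ : ℕ∞ω) ≠ 0 := by simp
  obtain ⟨K, hK⟩ : ∃ K : ℝ≥0, LipschitzWith K φ :=
    ContDiff.lipschitzWith_of_hasCompactSupport hc hφ (by simp)
  have p1 := (re_lip hR).integral_lineDeriv_mul_eq (μ := volume) hK hc 1
  have p2 := (im_lip hR).integral_lineDeriv_mul_eq (μ := volume) hK hc Complex.I
  have hld : ∀ z v, lineDeriv ℝ φ z (-v) = -fderiv ℝ φ z v := by
    intro z v
    rw [((hφ.differentiable ne) z).lineDeriv_eq_fderiv]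
    simp
  simp only [hld] at p1 p2
  -- integrability
  have i0 := hφ.continuous.integrable_of_hasCompactSupport (μ := volume) hc
  have i1 : Integrable (fun z => lineDeriv ℝ (fun z => (FF R z).re) z 1 * φ z) :=
    i0.bdd_mul ((re_lip hR).memLp_lineDeriv (μ := volume) 1).aestronglyMeasurable
      (Eventually.of_forall fun z => norm_lineDeriv_le_of_lipschitz ℝ (re_lip hR))
  have i2 : Integrable (fun z => lineDeriv ℝ (fun z => (FF R z).im) z Complex.I * φ z) :=
    i0.bdd_mul ((im_lip hR).memLp_lineDeriv (μ := volume) Complex.I).aestronglyMeasurable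
      (Eventually.of_forall fun z => norm_lineDeriv_le_of_lipschitz ℝ (im_lip hR))
  have d1 := (smooth_fderiv_apply hφ 1).continuous
  have d2 := (smooth_fderiv_apply hφ Complex.I).continuous
  have j1 : Integrable (fun z => -fderiv ℝ φ z 1 * (FF R z).re) :=
    (d1.neg.mul c1).integrable_of_hasCompactSupport ((cpt_fderiv_apply hc 1).neg.mul_right)
  have j2 : Integrable (fun z => -fderiv ℝ φ z Complex.I * (FF R z).im) :=
    (d2.neg.mul c2).integrable_of_hasCompactSupport ((cpt_fderiv_apply hc Complex.I).neg.mul_right)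
  have e1 : ∫ z, (-Φ * (FF R z).im * fderiv ℝ φ z Complex.I - Φ * (FF R z).re * fderiv ℝ φ z 1) =
      Φ * ((∫ z, -fderiv ℝ φ z 1 * (FF R z).re) + ∫ z, -fderiv ℝ φ z Complex.I * (FF R z).im) := by
    rw [← integral_add j1 j2, ← integral_const_mul]
    congr 1; ext z; ring
  have e2 : (∫ z, lineDeriv ℝ (fun z => (FF R z).re) z 1 * φ z) +
      (∫ z, lineDeriv ℝ (fun z => (FF R z).im) z Complex.I * φ z) =
      ∫ z, (ball (0:ℂ) R).indicator (fun z => 2 / R ^ 2 * φ z) z := by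
    rw [← integral_add i1 i2]
    apply integral_congr_ae
    have hnull : ∀ᵐ z : ℂ, z ∉ sphere (0:ℂ) R :=
      measure_eq_zero_iff_ae_notMem.1 (Measure.addHaar_sphere volume (0:ℂ) R)
    filter_upwards [hnull] with z hz
    rw [← add_mul]
    rcases lt_trichotomy ‖z‖ R with h | h | h
    · rw [ld_in hR h, indicator_of_mem (mem_ball_zero_iff.2 h)]
    · exact absurd (mem_sphere_zero_iff_norm.2 h) hz
    · rw [ld_out hR h, indicator_of_notMem (fun h' => absurd (mem_ball_zero_iff.1 h') (not_lt.2 h.le))]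
      ring
  rw [e1, ← p1, ← p2, e2, integral_indicator measurableSet_ball, integral_const_mul]
  ring

end Pool.Agent.V1186.Mag
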