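import Pool.Agent.V1186.Mag.Comm

set_option autoImplicit false

/-!
Lower bound for the magnetic energy on the unit disk with a strong field in a thin ellipse.
-/

namespace Pool.Agent.V1186.Mag

open MeasureTheory Set Metric Filter Topology
open scoped ContDiff

/-- The quadratic function of the ellipse with semi-axes `4/5` and `ε`. -/
noncomputable def rho (ε : ℝ) (z : ℂ) : ℝ := (z.re / (4 / 5)) ^ 2 + (z.im / ε) ^ 2

/-- The ellipse with semi-axes `4/5` and `ε`. -/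
def ell (ε : ℝ) : Set ℂ := {z | rho ε z < 1}

theorem rho_smooth (ε : ℝ) : ContDiff ℝ ∞ (rho ε) := by
  have h1 : ContDiff ℝ ∞ (fun z : ℂ => z.re) := Complex.reCLM.contDiff
  have h2 : ContDiff ℝ ∞ (fun z : ℂ => z.im) := Complex.imCLM.contDiff
  exact ((h1.div_const _).pow 2).add ((h2.div_const _).pow 2)

theorem ell_open (ε : ℝ) : IsOpen (ell ε) :=
  isOpen_lt (rho_smooth ε).continuous continuous_const

theorem norm_le_rho {ε : ℝ} (hε0 : 0 < ε) (hε : ε ≤ 4 / 5) (z : ℂ) :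
    ‖z‖ ^ 2 ≤ (4 / 5) ^ 2 * rho ε z := by
  rw [Complex.sq_norm, Complex.normSq_apply]
  unfold rho
  have h1 : (4 / 5 : ℝ) ^ 2 * (z.re / (4 / 5)) ^ 2 = z.re ^ 2 := by ring
  have h2 : z.im ^ 2 ≤ (4 / 5 : ℝ) ^ 2 * (z.im / ε) ^ 2 := by
    have h3 : (4 / 5 : ℝ) ^ 2 * (z.im / ε) ^ 2 = ((4 / 5) ^ 2 * z.im ^ 2) / ε ^ 2 := by ring
    rw [h3, le_div_iff₀ (by positivity)]
    have h4 := mul_le_mul_of_nonneg_left (pow_le_pow_left₀ hε0.le hε 2) (sq_nonneg z.im)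
    linarith
  nlinarith

theorem ell_sub_ball {ε : ℝ} (hε0 : 0 < ε) (hε : ε ≤ 4 / 5) : ell ε ⊆ ball (0 : ℂ) 1 := by
  intro z hz
  have h1 := norm_le_rho hε0 hε z
  have h2 : rho ε z < 1 := hz
  rw [mem_ball_zero_iff, ← sq_lt_one_iff₀ (norm_nonneg _)]
  nlinarith

/-- The cutoff function. -/
noncomputable def chi (ε : ℝ) (z : ℂ) : ℝ := Real.smoothTransition (3 - 4 * rho ε z)

theorem chi_smooth (ε : ℝ) : ContDiff ℝ ∞ (chi ε) :=
  Real.smoothTransition.contDiff.comp (contDiff_const.sub (contDiff_const.mul (rho_smooth ε)))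

theorem chi_nonneg (ε : ℝ) (z : ℂ) : 0 ≤ chi ε z := Real.smoothTransition.nonneg _
theorem chi_le_one (ε : ℝ) (z : ℂ) : chi ε z ≤ 1 := Real.smoothTransition.le_one _

theorem chi_core {ε : ℝ} (hε0 : 0 < ε) {z : ℂ} (hz : z ∈ core ε) : chi ε z = 1 := by
  apply Real.smoothTransition.one_of_one_le
  have h1 : (z.re / (4/5)) ^ 2 < (1/2) ^ 2 := by
    rw [sq_lt_sq, abs_div, abs_of_pos (show (0:ℝ) < 4/5 by norm_num),
      abs_of_pos (show (0:ℝ) < 1/2 by norm_num), div_lt_iff₀ (by norm_num)]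
    have := hz.1
    linarith
  have h2 : (z.im / ε) ^ 2 < (1/2) ^ 2 := by
    rw [sq_lt_sq, abs_div, abs_of_pos hε0, abs_of_pos (show (0:ℝ) < 1/2 by norm_num),
      div_lt_iff₀ hε0]
    have := hz.2
    linarith
  unfold rho
  linarith

theorem chi_supp {ε : ℝ} {z : ℂ} (h : chi ε z ≠ 0) : rho ε z < 3 / 4 := by
  by_contra hcon
  push Not at hcon
  exact h (Real.smoothTransition.zero_of_nonpos (by linarith))

theorem chi_tsupp (ε : ℝ) : tsupport (chi ε) ⊆ {z | rho ε z ≤ 3 / 4} := by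
  apply closure_minimal
  · intro z hz
    exact (chi_supp hz).le
  · exact isClosed_le (rho_smooth ε).continuous continuous_const

theorem chi_tsupp_ell (ε : ℝ) : tsupport (chi ε) ⊆ ell ε := by
  intro z hz
  have := chi_tsupp ε hz
  have h2 : rho ε z ≤ 3 / 4 := this
  show rho ε z < 1
  linarith

theorem chi_cpt {ε : ℝ} (hε0 : 0 < ε) (hε : ε ≤ 4 / 5) : HasCompactSupport (chi ε) := by
  apply HasCompactSupport.of_support_subset_isCompact (isCompact_closedBall (0:ℂ) 1)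
  intro z hz
  have h1 := chi_supp hz
  exact ball_subset_closedBall (ell_sub_ball hε0 hε (show rho ε z < 1 by linarith))

theorem chi_grad {ε : ℝ} (hε0 : 0 < ε) (hε : ε ≤ 4 / 5) : ∃ G : ℝ, 0 ≤ G ∧ ∀ z,
    |fderiv ℝ (chi ε) z 1| ≤ G ∧ |fderiv ℝ (chi ε) z Complex.I| ≤ G := by
  obtain ⟨C1, h1⟩ := (smooth_fderiv_apply (chi_smooth ε) 1).continuous.bounded_above_of_compact_support
    (cpt_fderiv_apply (chi_cpt hε0 hε) 1)
  obtain ⟨C2, h2⟩ := (smooth_fderiv_apply (chi_smooth ε)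
    Complex.I).continuous.bounded_above_of_compact_support
    (cpt_fderiv_apply (chi_cpt hε0 hε) Complex.I)
  refine ⟨max C1 C2, ?_, fun z => ⟨(h1 z).trans (le_max_left _ _), (h2 z).trans (le_max_right _ _)⟩⟩
  exact (norm_nonneg _).trans ((h1 0).trans (le_max_left _ _))

theorem phi_smooth {ε : ℝ} (hε0 : 0 < ε) (hε : ε ≤ 4 / 5) {u : ℂ → ℂ}
    (hu : ContDiffOn ℝ ∞ u (ball 0 1)) : ContDiff ℝ ∞ (fun z => (chi ε z : ℂ) * u z) := by
  rw [contDiff_iff_contDiffAt]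
  intro z
  by_cases hz : z ∈ ball (0 : ℂ) 1
  · have h1 : ContDiffAt ℝ ∞ u z := hu.contDiffAt (isOpen_ball.mem_nhds hz)
    have h2 : ContDiffAt ℝ ∞ (fun z => (chi ε z : ℂ)) z :=
      (Complex.ofRealCLM.contDiff.comp (chi_smooth ε)).contDiffAt
    exact h2.mul h1
  · have h1 : z ∉ tsupport (chi ε) := fun h => hz (ell_sub_ball hε0 hε (chi_tsupp_ell ε h))
    have h2 : chi ε =ᶠ[𝓝 z] 0 := notMem_tsupport_iff_eventuallyEq.1 h1
    have h3 : (fun z => (chi ε z : ℂ) * u z) =ᶠ[𝓝 z] fun _ => 0 := by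
      filter_upwards [h2] with y hy
      rw [hy]; simp
    exact contDiffAt_const.congr_of_eventuallyEq h3

theorem phi_supp (ε : ℝ) (u : ℂ → ℂ) :
    Function.support (fun z => (chi ε z : ℂ) * u z) ⊆ Function.support (chi ε) := by
  intro z hz h0
  apply hz
  simp [h0]

theorem D1_phi {ε : ℝ} {u : ℂ → ℂ} (hu : ContDiffOn ℝ ∞ u (ball 0 1)) {A₁ : ℂ → ℝ} {z : ℂ}
    (hz : z ∈ ball (0 : ℂ) 1) : D1 A₁ (fun z => (chi ε z : ℂ) * u z) z =
      chi ε z * D1 A₁ u z - Complex.I * (fderiv ℝ (chi ε) z 1 : ℝ) * u z := by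
  have ne : (∞ : ℕ∞ω) ≠ 0 := by simp
  have h1 : HasFDerivAt u (fderiv ℝ u z) z :=
    ((hu.differentiableOn ne).differentiableAt (isOpen_ball.mem_nhds hz)).hasFDerivAt
  have h2 : HasFDerivAt (fun z => (chi ε z : ℂ)) (Complex.ofRealCLM.comp (fderiv ℝ (chi ε) z)) z :=
    Complex.ofRealCLM.hasFDerivAt.comp z (((chi_smooth ε).differentiable ne) z).hasFDerivAt
  have h3 := (h2.mul h1).fderiv
  unfold D1 dx
  rw [show (fun z => (chi ε z : ℂ) * u z) = (fun z => (chi ε z : ℂ)) * u from rfl, h3]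
  simp
  ring

theorem D2_phi {ε : ℝ} {u : ℂ → ℂ} (hu : ContDiffOn ℝ ∞ u (ball 0 1)) {A₂ : ℂ → ℝ} {z : ℂ}
    (hz : z ∈ ball (0 : ℂ) 1) : D2 A₂ (fun z => (chi ε z : ℂ) * u z) z =
      chi ε z * D2 A₂ u z - Complex.I * (fderiv ℝ (chi ε) z Complex.I : ℝ) * u z := by
  have ne : (∞ : ℕ∞ω) ≠ 0 := by simp
  have h1 : HasFDerivAt u (fderiv ℝ u z) z :=
    ((hu.differentiableOn ne).differentiableAt (isOpen_ball.mem_nhds hz)).hasFDerivAt
  have h2 : HasFDerivAt (fun z => (chi ε z : ℂ)) (Complex.ofRealCLM.comp (fderiv ℝ (chi ε) z)) z :=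
    Complex.ofRealCLM.hasFDerivAt.comp z (((chi_smooth ε).differentiable ne) z).hasFDerivAt
  have h3 := (h2.mul h1).fderiv
  unfold D2 dy
  rw [show (fun z => (chi ε z : ℂ) * u z) = (fun z => (chi ε z : ℂ)) * u from rfl, h3]
  simp
  ring

theorem sq_bound {c G : ℝ} {v w : ℂ} {g : ℝ} (hc0 : 0 ≤ c) (hc1 : c ≤ 1) (hg : |g| ≤ G) :
    ‖(c : ℂ) * v - Complex.I * (g : ℂ) * w‖ ^ 2 ≤ 2 * ‖v‖ ^ 2 + 2 * G ^ 2 * ‖w‖ ^ 2 := by
  have h1 : ‖(c : ℂ) * v - Complex.I * (g : ℂ) * w‖ ≤ ‖v‖ + G * ‖w‖ := by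
    refine (norm_sub_le _ _).trans ?_
    rw [norm_mul, norm_mul, norm_mul, Complex.norm_I, Complex.norm_real, Complex.norm_real,
      Real.norm_eq_abs, Real.norm_eq_abs, abs_of_nonneg hc0, one_mul]
    exact add_le_add (mul_le_of_le_one_left (norm_nonneg _) hc1)
      (mul_le_mul_of_nonneg_right hg (norm_nonneg _))
  calc ‖(c : ℂ) * v - Complex.I * (g : ℂ) * w‖ ^ 2 ≤ (‖v‖ + G * ‖w‖) ^ 2 :=
        pow_le_pow_left₀ (norm_nonneg _) h1 2
    _ ≤ _ := by nlinarith [sq_nonneg (‖v‖ - G * ‖w‖)]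

theorem enorm_sq (w : ℂ) : ‖w‖ₑ ^ 2 = ENNReal.ofReal (‖w‖ ^ 2) := by
  rw [← ofReal_norm, ENNReal.ofReal_pow (norm_nonneg _)]

theorem core_bound {ε : ℝ} (hε0 : 0 < ε) (hε : ε ≤ 4 / 5) : ∃ G : ℝ, 0 ≤ G ∧
    ∀ b : ℝ, 0 ≤ b → ∀ A₁ A₂ : ℂ → ℝ, IsPotential (ball 0 1) (ell ε) b A₁ A₂ →
    ∀ u : ℂ → ℂ, ContDiffOn ℝ ∞ u (ball 0 1) →
    ENNReal.ofReal b * ∫⁻ z in core ε, ‖u z‖ₑ ^ 2 ≤
      2 * en A₁ A₂ u (ball 0 1) +
        ENNReal.ofReal (4 * G ^ 2) * ∫⁻ z in ball (0:ℂ) 1, ‖u z‖ₑ ^ 2 := by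
  obtain ⟨G, hG0, hG⟩ := chi_grad hε0 hε
  refine ⟨G, hG0, fun b hb A₁ A₂ hP u hu => ?_⟩
  set φ : ℂ → ℂ := fun z => (chi ε z : ℂ) * u z with hφdef
  have hφ : ContDiff ℝ ∞ φ := phi_smooth hε0 hε hu
  have hφc : HasCompactSupport φ := (chi_cpt hε0 hε).mono (phi_supp ε u)
  have hφt : tsupport φ ⊆ ell ε := (closure_mono (phi_supp ε u)).trans (chi_tsupp_ell ε)
  have hsub := ell_sub_ball hε0 hε
  have h := comm_ineq hP (ell_open ε).measurableSet hsub hφ hφc hφt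
  have ne : (∞ : ℕ∞ω) ≠ 0 := by simp
  have hu1 : ContDiffOn ℝ 1 u (ball 0 1) := hu.of_le (by exact ENat.LEInfty.out)
  have huc := hu.continuousOn
  -- pointwise bounds
  have hpt : ∀ z ∈ ball (0:ℂ) 1, ‖D1 A₁ φ z‖ ^ 2 + ‖D2 A₂ φ z‖ ^ 2 ≤
      2 * (‖D1 A₁ u z‖ ^ 2 + ‖D2 A₂ u z‖ ^ 2) + 4 * G ^ 2 * ‖u z‖ ^ 2 := by
    intro z hz
    rw [D1_phi hu hz, D2_phi hu hz]
    have h1 := sq_bound (v := D1 A₁ u z) (w := u z) (chi_nonneg ε z) (chi_le_one ε z) (hG z).1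
    have h2 := sq_bound (v := D2 A₂ u z) (w := u z) (chi_nonneg ε z) (chi_le_one ε z) (hG z).2
    linarith
  have hout : ∀ z, z ∉ ball (0:ℂ) 1 → ‖D1 A₁ φ z‖ ^ 2 + ‖D2 A₂ φ z‖ ^ 2 = 0 := by
    intro z hz
    have h1 : z ∉ tsupport φ := fun h => hz (hsub (hφt h))
    have h2 : φ =ᶠ[𝓝 z] 0 := notMem_tsupport_iff_eventuallyEq.1 h1
    have h3 : fderiv ℝ φ z = 0 := by
      rw [h2.fderiv_eq]; simp
    have h4 : φ z = 0 := h2.eq_of_nhds
    unfold D1 D2 dx dy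
    rw [h3, h4]; simp
  -- left side
  have hφ2 : Integrable (fun z => ‖φ z‖ ^ 2) := by
    apply (hφ.continuous.norm.pow 2).integrable_of_hasCompactSupport
    exact hφc.norm.comp_left (g := fun t : ℝ => t ^ 2) (by simp)
  have hL : ENNReal.ofReal b * ∫⁻ z in core ε, ‖u z‖ₑ ^ 2 ≤
      ENNReal.ofReal (b * ∫ z, ‖φ z‖ ^ 2) := by
    rw [ENNReal.ofReal_mul hb]
    gcongr
    rw [ofReal_integral_eq_lintegral_ofReal hφ2 (Eventually.of_forall fun z => by positivity)]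
    calc ∫⁻ z in core ε, ‖u z‖ₑ ^ 2 = ∫⁻ z in core ε, ENNReal.ofReal (‖φ z‖ ^ 2) := by
          refine setLIntegral_congr_fun (core_meas ε) fun z hz => ?_
          simp only [hφdef]
          rw [enorm_sq, chi_core hε0 hz]; simp
      _ ≤ _ := setLIntegral_le_lintegral _ _
  have hR : ENNReal.ofReal (∫ z, (‖D1 A₁ φ z‖ ^ 2 + ‖D2 A₂ φ z‖ ^ 2)) ≤
      2 * en A₁ A₂ u (ball 0 1) +
        ENNReal.ofReal (4 * G ^ 2) * ∫⁻ z in ball (0:ℂ) 1, ‖u z‖ₑ ^ 2 := by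
    by_cases hint : Integrable (fun z => ‖D1 A₁ φ z‖ ^ 2 + ‖D2 A₂ φ z‖ ^ 2)
    · rw [ofReal_integral_eq_lintegral_ofReal hint (Eventually.of_forall fun z => by positivity)]
      have e1 : ∫⁻ z, ENNReal.ofReal (‖D1 A₁ φ z‖ ^ 2 + ‖D2 A₂ φ z‖ ^ 2) =
          ∫⁻ z in ball (0:ℂ) 1, ENNReal.ofReal (‖D1 A₁ φ z‖ ^ 2 + ‖D2 A₂ φ z‖ ^ 2) := by
        rw [← lintegral_indicator measurableSet_ball]
        refine lintegral_congr fun z => ?_
        by_cases hz : z ∈ ball (0:ℂ) 1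
        · rw [indicator_of_mem hz]
        · rw [indicator_of_notMem hz, hout z hz]; simp
      rw [e1]
      calc ∫⁻ z in ball (0:ℂ) 1, ENNReal.ofReal (‖D1 A₁ φ z‖ ^ 2 + ‖D2 A₂ φ z‖ ^ 2)
          ≤ ∫⁻ z in ball (0:ℂ) 1, (2 * (‖D1 A₁ u z‖ₑ ^ 2 + ‖D2 A₂ u z‖ₑ ^ 2) +
            ENNReal.ofReal (4 * G ^ 2) * ‖u z‖ₑ ^ 2) := by
            refine setLIntegral_mono' measurableSet_ball fun z hz => ?_
            refine (ENNReal.ofReal_le_ofReal (hpt z hz)).trans (le_of_eq ?_)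
            rw [ENNReal.ofReal_add (by positivity) (by positivity),
              ENNReal.ofReal_mul (by norm_num), ENNReal.ofReal_add (by positivity) (by positivity),
              ENNReal.ofReal_mul (by positivity), enorm_sq, enorm_sq, enorm_sq]
            simp
        _ = _ := by
            rw [lintegral_add_right', lintegral_const_mul' _ _ (by norm_num),
              lintegral_const_mul' _ _ ENNReal.ofReal_ne_top]
            · rfl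
            · exact (((huc.aestronglyMeasurable measurableSet_ball).enorm).pow_const 2).const_mul _
    · rw [integral_undef hint]; simp
  exact hL.trans ((ENNReal.ofReal_le_ofReal h).trans hR)

/-- **Lower bound.** -/
theorem lower {ε : ℝ} (hε0 : 0 < ε) (hε : ε ≤ 4 / 5) : ∃ b₀ : ℝ, ∀ b : ℝ, b₀ ≤ b →
    ∀ A₁ A₂ : ℂ → ℝ, IsPotential (ball 0 1) (ell ε) b A₁ A₂ →
    ∀ u : ℂ → ℂ, ContDiffOn ℝ ∞ u (ball 0 1) → ∫⁻ z in ball (0:ℂ) 1, ‖u z‖ₑ ^ 2 ≠ ⊤ →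
    ENNReal.ofReal (3 / 164) * ∫⁻ z in ball (0:ℂ) 1, ‖u z‖ₑ ^ 2 ≤ en A₁ A₂ u (ball 0 1) := by
  obtain ⟨G, hG0, hG⟩ := core_bound hε0 hε
  -- b large: (20/ε) * 2 / b ≤ 1 and (20/ε)*(4G²)/b ≤ 1/4
  refine ⟨max 1 (40 / ε + 320 / ε * G ^ 2), fun b hb A₁ A₂ hP u hu hM => ?_⟩
  have hb1 : 1 ≤ b := (le_max_left _ _).trans hb
  have hb2 : 40 / ε + 320 / ε * G ^ 2 ≤ b := (le_max_right _ _).trans hb
  have hb0 : 0 < b := by linarith
  have h1 := hG b hb0.le A₁ A₂ hP u hu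
  have hu1 : ContDiffOn ℝ 1 u (ball 0 1) := hu.of_le (by exact ENat.LEInfty.out)
  have h2 := poinD hu1 hP.cont₁ hP.cont₂ hε0 hε
  set M := ∫⁻ z in ball (0:ℂ) 1, ‖u z‖ₑ ^ 2 with hMdef
  set K := ∫⁻ z in core ε, ‖u z‖ₑ ^ 2 with hK
  set E := en A₁ A₂ u (ball 0 1) with hE
  rcases eq_or_ne E ⊤ with hEt | hEt
  · rw [hEt]; exact le_top
  have hKt : K ≠ ⊤ := by
    intro hKt
    rw [hKt] at h1
    rw [ENNReal.mul_top (by simpa using hb0)] at h1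
    have : 2 * E + ENNReal.ofReal (4 * G ^ 2) * M ≠ ⊤ :=
      ENNReal.add_ne_top.2 ⟨ENNReal.mul_ne_top (by norm_num) hEt,
        ENNReal.mul_ne_top ENNReal.ofReal_ne_top hM⟩
    exact this (top_le_iff.1 h1)
  -- pass to reals
  obtain ⟨M', hM'0, hM'⟩ : ∃ M' : ℝ, 0 ≤ M' ∧ M = ENNReal.ofReal M' :=
    ⟨M.toReal, ENNReal.toReal_nonneg, (ENNReal.ofReal_toReal hM).symm⟩
  obtain ⟨K', hK'0, hK'⟩ : ∃ K' : ℝ, 0 ≤ K' ∧ K = ENNReal.ofReal K' :=
    ⟨K.toReal, ENNReal.toReal_nonneg, (ENNReal.ofReal_toReal hKt).symm⟩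
  obtain ⟨E', hE'0, hE'⟩ : ∃ E' : ℝ, 0 ≤ E' ∧ E = ENNReal.ofReal E' :=
    ⟨E.toReal, ENNReal.toReal_nonneg, (ENNReal.ofReal_toReal hEt).symm⟩
  rw [hM', hK', hE'] at h1 h2
  rw [hM', hE']
  have e2 : (2 : ENNReal) = ENNReal.ofReal 2 := by simp
  have e40 : (40 : ENNReal) = ENNReal.ofReal 40 := by simp
  rw [← ENNReal.ofReal_mul hb0.le, e2, ← ENNReal.ofReal_mul (by norm_num),
    ← ENNReal.ofReal_mul (by positivity), ← ENNReal.ofReal_add (by positivity) (by positivity),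
    ENNReal.ofReal_le_ofReal_iff (by positivity)] at h1
  rw [e40, ← ENNReal.ofReal_mul (by positivity), ← ENNReal.ofReal_mul (by norm_num),
    ← ENNReal.ofReal_add (by positivity) (by positivity),
    ENNReal.ofReal_le_ofReal_iff (by positivity)] at h2
  rw [← ENNReal.ofReal_mul (by norm_num)]
  apply ENNReal.ofReal_le_ofReal
  -- K' ≤ (2E'+4G²M')/b
  have h3 : 20 / ε * K' ≤ E' + M' / 4 := by
    have h4 : 20 / ε * (b * K') ≤ 20 / ε * (2 * E' + 4 * G ^ 2 * M') :=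
      mul_le_mul_of_nonneg_left h1 (by positivity)
    have h5 : 20 / ε * (2 * E' + 4 * G ^ 2 * M') = 40 / ε * E' + (320 / ε * G ^ 2) * (M' / 4) := by
      ring
    have h6 : 40 / ε ≤ b := by
      have : 0 ≤ 320 / ε * G ^ 2 := by positivity
      linarith
    have h7 : 320 / ε * G ^ 2 ≤ b := by
      have : 0 ≤ 40 / ε := by positivity
      linarith
    have h8 : 40 / ε * E' + (320 / ε * G ^ 2) * (M' / 4) ≤ b * E' + b * (M' / 4) := by
      gcongr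
    have h9 : b * (20 / ε * K') ≤ b * (E' + M' / 4) := by
      calc b * (20 / ε * K') = 20 / ε * (b * K') := by ring
        _ ≤ _ := h4
        _ = _ := h5
        _ ≤ _ := h8
        _ = _ := by ring
    exact le_of_mul_le_mul_left h9 hb0
  linarith

end Pool.Agent.V1186.Mag
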