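import Mathlib

set_option autoImplicit false

/-!
One dimensional diamagnetic Poincare inequality.
-/

namespace Pool.Agent.V1186.Mag

open MeasureTheory Set
open scoped ENNReal

theorem sq_lintegral_le {α : Type*} [MeasurableSpace α] (μ : Measure α) (w : α → ℝ≥0∞)
    (hw : AEMeasurable w μ) : (∫⁻ x, w x ∂μ) ^ 2 ≤ μ univ * ∫⁻ x, w x ^ 2 ∂μ := by
  have h := ENNReal.lintegral_mul_le_Lp_mul_Lq μ (Real.HolderConjugate.two_two) (f := fun _ => 1)
    (g := w) aemeasurable_const hw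
  simp only [Pi.mul_apply, one_mul, ENNReal.one_rpow, lintegral_const] at h
  have h2 : ∀ x : ℝ≥0∞, (x ^ (1 / 2 : ℝ)) ^ 2 = x := by
    intro x
    rw [← ENNReal.rpow_natCast, ← ENNReal.rpow_mul]; norm_num
  calc (∫⁻ x, w x ∂μ) ^ 2 ≤ ((μ univ) ^ (1 / 2 : ℝ) * (∫⁻ x, w x ^ (2:ℝ) ∂μ) ^ (1 / 2 : ℝ)) ^ 2 :=
        pow_le_pow_left₀ (zero_le) h 2
    _ = μ univ * ∫⁻ x, w x ^ 2 ∂μ := by
        rw [mul_pow, h2, h2]
        congr 2
        ext x
        rw [← ENNReal.rpow_natCast]; norm_num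

theorem add_sq_le' (a b : ℝ≥0∞) : (a + b) ^ 2 ≤ 2 * a ^ 2 + 2 * b ^ 2 := by
  rcases eq_or_ne a ∞ with ha | ha
  · subst ha; simp [ENNReal.mul_top]
  rcases eq_or_ne b ∞ with hb | hb
  · subst hb; simp [ENNReal.mul_top]
  lift a to NNReal using ha
  lift b to NNReal using hb
  norm_cast
  have := sq_nonneg ((a : ℝ) - b)
  rw [← NNReal.coe_le_coe]
  push_cast
  nlinarith

/-- covariant derivative along a line -/
noncomputable def cd (f f' : ℝ → ℂ) (α : ℝ → ℝ) (t : ℝ) : ℂ :=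
  -Complex.I * f' t - α t * f t

theorem diam {a b : ℝ} {f f' : ℝ → ℂ} {α : ℝ → ℝ} (hα : Continuous α)
    (hf : ∀ t ∈ Ioo a b, HasDerivAt f (f' t) t) (hf' : ContinuousOn f' (Ioo a b))
    {s t : ℝ} (hs : s ∈ Ioo a b) (ht : t ∈ Ioo a b) :
    ‖f t‖ₑ ≤ ‖f s‖ₑ + ∫⁻ τ in Ioo a b, ‖cd f f' α τ‖ₑ := by
  set G : ℝ → ℝ := fun τ => ∫ x in s..τ, α x with hG
  have hGd : ∀ τ, HasDerivAt G (α τ) τ := fun τ =>
    intervalIntegral.integral_hasDerivAt_right (hα.intervalIntegrable _ _)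
      hα.aestronglyMeasurable.stronglyMeasurableAtFilter hα.continuousAt
  set g : ℝ → ℂ := fun τ => Complex.exp (-Complex.I * G τ) * f τ with hg
  have hgd : ∀ τ ∈ Ioo a b, HasDerivAt g (Complex.exp (-Complex.I * G τ) *
      (f' τ - Complex.I * α τ * f τ)) τ := by
    intro τ hτ
    have h1 : HasDerivAt (fun τ => Complex.exp (-Complex.I * G τ))
        (Complex.exp (-Complex.I * G τ) * (-Complex.I * α τ)) τ := by
      have h2 : HasDerivAt (fun τ => -Complex.I * (G τ : ℂ)) (-Complex.I * α τ) τ :=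
        ((hGd τ).ofReal_comp).const_mul _
      exact h2.cexp
    have h3 := h1.mul (hf τ hτ)
    refine h3.congr_deriv ?_
    ring
  have hsub : uIcc s t ⊆ Ioo a b := by
    intro x hx
    rcases le_total s t with h | h
    · rw [uIcc_of_le h] at hx
      exact ⟨lt_of_lt_of_le hs.1 hx.1, lt_of_le_of_lt hx.2 ht.2⟩
    · rw [uIcc_of_ge h] at hx
      exact ⟨lt_of_lt_of_le ht.1 hx.1, lt_of_le_of_lt hx.2 hs.2⟩
  have hcont : ContinuousOn (fun τ => Complex.exp (-Complex.I * G τ) *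
      (f' τ - Complex.I * α τ * f τ)) (uIcc s t) := by
    have hGc : Continuous G := continuous_iff_continuousAt.2 fun τ => (hGd τ).continuousAt
    have h1 : ContinuousOn f (uIcc s t) := fun x hx => (hf x (hsub hx)).continuousAt.continuousWithinAt
    have h2 : ContinuousOn f' (uIcc s t) := hf'.mono hsub
    have h3 : ContinuousOn (fun τ => Complex.exp (-Complex.I * G τ)) (uIcc s t) :=
      (Complex.continuous_exp.comp (continuous_const.mul
        (Complex.continuous_ofReal.comp hGc))).continuousOn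
    have h4 : ContinuousOn (fun τ => Complex.I * (α τ : ℂ)) (uIcc s t) :=
      (continuous_const.mul (Complex.continuous_ofReal.comp hα)).continuousOn
    exact h3.mul (h2.sub (h4.mul h1))
  have hint := intervalIntegral.integral_eq_sub_of_hasDerivAt
    (fun x hx => hgd x (hsub hx)) hcont.intervalIntegrable
  have hgs : ‖g s‖ₑ = ‖f s‖ₑ := by
    rw [hg]
    simp [hG]
  have hgt : ‖g t‖ₑ = ‖f t‖ₑ := by
    rw [hg]
    simp only [enorm_mul]
    have : ‖Complex.exp (-Complex.I * G t)‖ₑ = 1 := by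
      rw [← ofReal_norm]
      have : ‖Complex.exp (-Complex.I * G t)‖ = 1 := by
        rw [Complex.norm_exp]
        simp
      rw [this]; simp
    rw [this, one_mul]
  have hle : ‖g t‖ₑ ≤ ‖g s‖ₑ + ‖∫ y in s..t, Complex.exp (-Complex.I * G y) *
      (f' y - Complex.I * α y * f y)‖ₑ := by
    have : g t = g s + ∫ y in s..t, Complex.exp (-Complex.I * G y) *
      (f' y - Complex.I * α y * f y) := by rw [hint]; ring
    calc ‖g t‖ₑ = ‖g s + ∫ y in s..t, Complex.exp (-Complex.I * G y) *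
      (f' y - Complex.I * α y * f y)‖ₑ := by rw [← this]
      _ ≤ _ := enorm_add_le _ _
  rw [hgt, hgs] at hle
  refine hle.trans (add_le_add le_rfl ?_)
  have h5 : ‖∫ y in s..t, Complex.exp (-Complex.I * G y) * (f' y - Complex.I * α y * f y)‖ₑ ≤
      ∫⁻ y in uIoc s t, ‖Complex.exp (-Complex.I * G y) * (f' y - Complex.I * α y * f y)‖ₑ := by
    rw [intervalIntegral.intervalIntegral_eq_integral_uIoc]
    rw [enorm_smul]
    have : ‖(if s ≤ t then (1:ℝ) else -1)‖ₑ = 1 := by split_ifs <;> simp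
    rw [this, one_mul]
    exact enorm_integral_le_lintegral_enorm _
  refine h5.trans ?_
  have h6 : ∀ y, ‖Complex.exp (-Complex.I * G y) * (f' y - Complex.I * α y * f y)‖ₑ =
      ‖cd f f' α y‖ₑ := by
    intro y
    rw [enorm_mul]
    have h7 : ‖Complex.exp (-Complex.I * G y)‖ₑ = 1 := by
      rw [← ofReal_norm]
      have : ‖Complex.exp (-Complex.I * G y)‖ = 1 := by
        rw [Complex.norm_exp]
        simp
      rw [this]; simp
    rw [h7, one_mul]
    unfold cd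
    have : -Complex.I * f' y - α y * f y = -Complex.I * (f' y - Complex.I * α y * f y) := by
      ring_nf
      rw [Complex.I_sq]; ring
    rw [this, enorm_mul]
    have h8 : ‖-Complex.I‖ₑ = 1 := by
      rw [← ofReal_norm, norm_neg, Complex.norm_I]; simp
    rw [h8, one_mul]
  simp only [h6]
  exact lintegral_mono_set (uIoc_subset_uIcc.trans hsub)

/-- One dimensional diamagnetic Poincare inequality on an interval, from a subset. -/
theorem poin1 {a b : ℝ} {f f' : ℝ → ℂ} {α : ℝ → ℝ} (hα : Continuous α)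
    (hf : ∀ t ∈ Ioo a b, HasDerivAt f (f' t) t) (hf' : ContinuousOn f' (Ioo a b))
    {J : Set ℝ} (hJm : MeasurableSet J) (hJ : J ⊆ Ioo a b) :
    volume J * ∫⁻ t in Ioo a b, ‖f t‖ₑ ^ 2 ≤
      2 * volume (Ioo a b) * (∫⁻ s in J, ‖f s‖ₑ ^ 2) +
        2 * volume J * volume (Ioo a b) ^ 2 * ∫⁻ τ in Ioo a b, ‖cd f f' α τ‖ₑ ^ 2 := by
  set W := ∫⁻ τ in Ioo a b, ‖cd f f' α τ‖ₑ with hW
  have hfc : ContinuousOn f (Ioo a b) := fun x hx => (hf x hx).continuousAt.continuousWithinAt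
  have hcdc : ContinuousOn (fun τ => cd f f' α τ) (Ioo a b) := by
    unfold cd
    exact (continuousOn_const.mul hf').sub
      ((Complex.continuous_ofReal.comp hα).continuousOn.mul hfc)
  have hWsq : W ^ 2 ≤ volume (Ioo a b) * ∫⁻ τ in Ioo a b, ‖cd f f' α τ‖ₑ ^ 2 := by
    have := sq_lintegral_le (volume.restrict (Ioo a b)) (fun τ => ‖cd f f' α τ‖ₑ)
      ((hcdc.aestronglyMeasurable measurableSet_Ioo).enorm)
    rwa [Measure.restrict_apply_univ] at this
  have hpt : ∀ t ∈ Ioo a b, ∀ s ∈ J, ‖f t‖ₑ ^ 2 ≤ 2 * ‖f s‖ₑ ^ 2 + 2 * W ^ 2 := by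
    intro t ht s hs
    have h1 := diam hα hf hf' (hJ hs) ht
    calc ‖f t‖ₑ ^ 2 ≤ (‖f s‖ₑ + W) ^ 2 := pow_le_pow_left₀ zero_le h1 2
      _ ≤ 2 * ‖f s‖ₑ ^ 2 + 2 * W ^ 2 := add_sq_le' _ _
  have hint : ∀ t ∈ Ioo a b, volume J * ‖f t‖ₑ ^ 2 ≤ 2 * (∫⁻ s in J, ‖f s‖ₑ ^ 2) +
      2 * W ^ 2 * volume J := by
    intro t ht
    calc volume J * ‖f t‖ₑ ^ 2 = ∫⁻ s in J, ‖f t‖ₑ ^ 2 := by
          rw [setLIntegral_const, mul_comm]
      _ ≤ ∫⁻ s in J, (2 * ‖f s‖ₑ ^ 2 + 2 * W ^ 2) :=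
          setLIntegral_mono' hJm (fun s hs => hpt t ht s hs)
      _ = 2 * (∫⁻ s in J, ‖f s‖ₑ ^ 2) + 2 * W ^ 2 * volume J := by
          rw [lintegral_add_right _ measurable_const, setLIntegral_const,
            lintegral_const_mul' _ _ (by norm_num)]
  calc volume J * ∫⁻ t in Ioo a b, ‖f t‖ₑ ^ 2
      = ∫⁻ t in Ioo a b, volume J * ‖f t‖ₑ ^ 2 := by
        rw [lintegral_const_mul'']
        exact ((hfc.aestronglyMeasurable measurableSet_Ioo).enorm).pow_const 2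
    _ ≤ ∫⁻ _t in Ioo a b, (2 * (∫⁻ s in J, ‖f s‖ₑ ^ 2) + 2 * W ^ 2 * volume J) :=
        setLIntegral_mono' measurableSet_Ioo hint
    _ = (2 * (∫⁻ s in J, ‖f s‖ₑ ^ 2) + 2 * W ^ 2 * volume J) * volume (Ioo a b) := by
        rw [setLIntegral_const]
    _ = 2 * volume (Ioo a b) * (∫⁻ s in J, ‖f s‖ₑ ^ 2) +
        2 * volume J * volume (Ioo a b) * W ^ 2 := by ring
    _ ≤ 2 * volume (Ioo a b) * (∫⁻ s in J, ‖f s‖ₑ ^ 2) +
        2 * volume J * volume (Ioo a b) *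
          (volume (Ioo a b) * ∫⁻ τ in Ioo a b, ‖cd f f' α τ‖ₑ ^ 2) := by gcongr
    _ = _ := by ring

end Pool.Agent.V1186.Mag
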