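import Pool.Agent.V1186.Mag.Low

set_option autoImplicit false

/-!
Explicit vector potentials for the ellipse and for the disk.
-/

namespace Pool.Agent.V1186.Mag

open MeasureTheory Set Metric Filter Topology
open scoped ContDiff

theorem clamp_parts {h : ℝ} (hh : 0 ≤ h) {g : ℝ → ℝ} (hg : ContDiff ℝ 1 g)
    (hc : HasCompactSupport g) :
    ∫ y, max (-h) (min y h) * deriv g y = - ∫ y in Ioo (-h) h, g y := by
  have hgd : Continuous (deriv g) := hg.continuous_deriv le_rfl
  have hgc : HasCompactSupport (deriv g) := hc.deriv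
  have hcl : Continuous fun y : ℝ => max (-h) (min y h) := by fun_prop
  have hint : Integrable (fun y => max (-h) (min y h) * deriv g y) :=
    (hcl.mul hgd).integrable_of_hasCompactSupport hgc.mul_left
  rw [← integral_add_compl (measurableSet_Iic (a := -h)) hint, compl_Iic]
  have e1 : ∫ y in Iic (-h), max (-h) (min y h) * deriv g y = -h * g (-h) := by
    rw [← hc.integral_Iic_deriv_eq hg (-h), ← integral_const_mul]
    refine setIntegral_congr_fun measurableSet_Iic fun y hy => ?_
    have hy' : y ≤ -h := hy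
    rw [max_eq_left ((min_le_left _ _).trans hy')]
  have hsplit : Ioi (-h) = Ioc (-h) h ∪ Ioi h := (Ioc_union_Ioi_eq_Ioi (by linarith)).symm
  have e2 : ∫ y in Ioi h, max (-h) (min y h) * deriv g y = -h * g h := by
    have : ∫ y in Ioi h, max (-h) (min y h) * deriv g y = h * ∫ y in Ioi h, deriv g y := by
      rw [← integral_const_mul]
      refine setIntegral_congr_fun measurableSet_Ioi fun y hy => ?_
      have hy' : h < y := hy
      rw [min_eq_right hy'.le, max_eq_right (by linarith)]
    rw [this, hc.integral_Ioi_deriv_eq hg]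
    ring
  have e3 : ∫ y in Ioc (-h) h, max (-h) (min y h) * deriv g y =
      h * g h + h * g (-h) - ∫ y in Ioo (-h) h, g y := by
    have a1 : ∫ y in Ioc (-h) h, max (-h) (min y h) * deriv g y =
        ∫ y in (-h)..h, y * deriv g y := by
      rw [intervalIntegral.integral_of_le (by linarith)]
      refine setIntegral_congr_fun measurableSet_Ioc fun y hy => ?_
      rw [min_eq_left hy.2, max_eq_right hy.1.le]
    rw [a1, intervalIntegral.integral_mul_deriv_eq_deriv_mul (u := fun y => y) (u' := fun _ => 1)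
      (v := g) (v' := deriv g) (fun x _ => hasDerivAt_id x)
      (fun x _ => ((hg.differentiable one_ne_zero) x).hasDerivAt) (by simp)
      (hgd.intervalIntegrable _ _)]
    simp only [one_mul]
    rw [intervalIntegral.integral_of_le (by linarith), integral_Ioc_eq_integral_Ioo]
    ring
  rw [e1, hsplit, setIntegral_union (by
    rw [Set.disjoint_left]; intro y hy hy2
    exact absurd hy.2 (not_le.2 hy2)) measurableSet_Ioi hint.integrableOn hint.integrableOn, e2, e3]
  ring

theorem int_xy {F : ℂ → ℝ} (hF : Integrable F) :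
    ∫ z, F z = ∫ x : ℝ, ∫ y : ℝ, F ⟨x, y⟩ := by
  have h := (Complex.volume_preserving_equiv_real_prod.symm).integral_comp
    Complex.measurableEquivRealProd.symm.measurableEmbedding F
  rw [← h, Measure.volume_eq_prod, integral_prod]
  · rfl
  · have := (Complex.volume_preserving_equiv_real_prod.symm).integrable_comp_of_integrable hF
    rwa [← Measure.volume_eq_prod]

/-- half height of the ellipse -/
noncomputable def hh (ε x : ℝ) : ℝ := ε * √(1 - (x / (4 / 5)) ^ 2)

theorem ell_iff {ε : ℝ} (hε : 0 < ε) (x y : ℝ) :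
    (⟨x, y⟩ : ℂ) ∈ ell ε ↔ y ∈ Ioo (-hh ε x) (hh ε x) := by
  rw [mem_Ioo, ← abs_lt]
  unfold hh
  show rho ε ⟨x, y⟩ < 1 ↔ _
  unfold rho
  rw [← div_lt_iff₀' hε]
  have : |y| / ε = |y / ε| := by rw [abs_div, abs_of_pos hε]
  rw [this, Real.lt_sqrt (abs_nonneg _), sq_abs]
  constructor <;> intro h <;> simp only at h ⊢ <;> linarith

theorem pot_ell {ε b : ℝ} (hε : 0 < ε) (Ω : Set ℂ) :
    IsPotential Ω (ell ε) b (fun z => -b * max (-hh ε z.re) (min z.im (hh ε z.re))) (fun _ => 0) := by
  have hcont : Continuous fun z : ℂ => -b * max (-hh ε z.re) (min z.im (hh ε z.re)) := by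
    unfold hh
    have h1 := Complex.continuous_re
    have h2 := Complex.continuous_im
    fun_prop
  refine ⟨hcont, continuous_const, fun φ hφ hc _ => ?_⟩
  have ne : (∞ : ℕ∞ω) ≠ 0 := by simp
  simp only [zero_mul, sub_zero]
  have hd := (smooth_fderiv_apply hφ Complex.I).continuous
  have hdc := cpt_fderiv_apply hc Complex.I
  rw [int_xy (F := fun z => -b * max (-hh ε z.re) (min z.im (hh ε z.re)) * fderiv ℝ φ z Complex.I)
    ((hcont.mul hd).integrable_of_hasCompactSupport hdc.mul_left)]
  rw [← integral_indicator (ell_open ε).measurableSet, int_xy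
    ((hφ.continuous.integrable_of_hasCompactSupport hc).indicator (ell_open ε).measurableSet),
    ← integral_const_mul]
  congr 1
  ext x
  set g : ℝ → ℝ := fun y => φ ⟨x, y⟩ with hg
  have hmk : ContDiff ℝ ∞ (fun t : ℝ => (⟨x, t⟩ : ℂ)) := by
    have : (fun t : ℝ => (⟨x, t⟩ : ℂ)) = fun t : ℝ => (x : ℂ) + t * Complex.I := by
      ext t; exact Complex.mk_eq_add_mul_I x t
    rw [this]
    exact contDiff_const.add (Complex.ofRealCLM.contDiff.mul contDiff_const)
  have hgs : ContDiff ℝ ∞ g := hφ.comp hmk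
  have hgc : HasCompactSupport g := by
    obtain ⟨R, hR⟩ := hc.isCompact.isBounded.subset_closedBall (0 : ℂ)
    apply HasCompactSupport.of_support_subset_isCompact (isCompact_Icc (a := -R) (b := R))
    intro y hy
    have h1 : (⟨x, y⟩ : ℂ) ∈ closedBall (0 : ℂ) R := hR (subset_tsupport _ hy)
    rw [mem_closedBall_zero_iff] at h1
    have h2 := (Complex.abs_im_le_norm (⟨x, y⟩ : ℂ)).trans h1
    exact abs_le.1 h2
  have hgd : ∀ y, deriv g y = fderiv ℝ φ ⟨x, y⟩ Complex.I := by
    intro y
    have h2 : HasDerivAt (fun t : ℝ => (⟨x, t⟩ : ℂ)) Complex.I y := by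
      have : (fun t : ℝ => (⟨x, t⟩ : ℂ)) = fun t : ℝ => (x : ℂ) + t * Complex.I := by
        ext t; exact Complex.mk_eq_add_mul_I x t
      rw [this]
      have := ((Complex.ofRealCLM.hasDerivAt (x := y)).mul_const Complex.I).const_add (x : ℂ)
      simpa using this
    exact (((hφ.differentiable ne) _).hasFDerivAt.comp_hasDerivAt y h2).deriv
  have hh0 : 0 ≤ hh ε x := mul_nonneg hε.le (Real.sqrt_nonneg _)
  have key := clamp_parts hh0 (hgs.of_le (by exact ENat.LEInfty.out)) hgc
  have e1 : ∫ y, -b * max (-hh ε x) (min y (hh ε x)) * fderiv ℝ φ ⟨x, y⟩ Complex.I =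
      -b * ∫ y, max (-hh ε x) (min y (hh ε x)) * deriv g y := by
    rw [← integral_const_mul]
    congr 1; ext y
    rw [hgd]; ring
  have e2 : ∫ y, (ell ε).indicator φ ⟨x, y⟩ = ∫ y in Ioo (-hh ε x) (hh ε x), g y := by
    rw [← integral_indicator measurableSet_Ioo]
    congr 1; ext y
    by_cases h : y ∈ Ioo (-hh ε x) (hh ε x)
    · rw [indicator_of_mem h, indicator_of_mem ((ell_iff hε x y).2 h)]
    · rw [indicator_of_notMem h, indicator_of_notMem (fun h' => h ((ell_iff hε x y).1 h'))]
  rw [e1, e2, key]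
  ring

end Pool.Agent.V1186.Mag
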