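import Pool.Agent.V1186.Mag.One

set_option autoImplicit false

/-!
Two dimensional diamagnetic Poincare inequality on the unit disk, from a thin rectangle.
-/

namespace Pool.Agent.V1186.Mag

open MeasureTheory Set Metric
open scoped ENNReal ContDiff

theorem poin2 {a b a' b' c : ℝ} {f f' : ℝ → ℂ} {α : ℝ → ℝ} (hα : Continuous α)
    (hf : ∀ t ∈ Ioo a b, HasDerivAt f (f' t) t) (hf' : ContinuousOn f' (Ioo a b))
    (hb : b - a ≤ 2) (hj : 0 < b' - a') (hJ : Ioo a' b' ⊆ Ioo a b) (hc : b - a ≤ c * (b' - a'))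
    (hba : 0 ≤ b - a) :
    ∫⁻ t in Ioo a b, ‖f t‖ₑ ^ 2 ≤
      ENNReal.ofReal (2 * c) * (∫⁻ s in Ioo a' b', ‖f s‖ₑ ^ 2) +
        8 * ∫⁻ τ in Ioo a b, ‖cd f f' α τ‖ₑ ^ 2 := by
  have h := poin1 hα hf hf' measurableSet_Ioo hJ
  rw [Real.volume_Ioo, Real.volume_Ioo] at h
  set Q := ∫⁻ s in Ioo a' b', ‖f s‖ₑ ^ 2
  set R := ∫⁻ τ in Ioo a b, ‖cd f f' α τ‖ₑ ^ 2
  have hj0 : ENNReal.ofReal (b' - a') ≠ 0 := by
    rw [Ne, ENNReal.ofReal_eq_zero]; linarith
  have hjt : ENNReal.ofReal (b' - a') ≠ ⊤ := ENNReal.ofReal_ne_top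
  have hc0 : 0 ≤ c := by
    by_contra hcon
    push Not at hcon
    nlinarith
  rw [← ENNReal.mul_le_mul_iff_right hj0 hjt]
  refine h.trans ?_
  have h1 : 2 * ENNReal.ofReal (b - a) * Q ≤
      ENNReal.ofReal (b' - a') * (ENNReal.ofReal (2 * c) * Q) := by
    rw [← mul_assoc]
    refine mul_le_mul_left ?_ Q
    rw [← ENNReal.ofReal_mul hj.le]
    have : (2 : ℝ≥0∞) = ENNReal.ofReal 2 := by simp
    rw [this, ← ENNReal.ofReal_mul (by norm_num)]
    apply ENNReal.ofReal_le_ofReal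
    linarith
  have h2 : 2 * ENNReal.ofReal (b' - a') * ENNReal.ofReal (b - a) ^ 2 * R ≤
      ENNReal.ofReal (b' - a') * (8 * R) := by
    have h3 : ENNReal.ofReal (b - a) ≤ 2 := by
      have : (2 : ℝ≥0∞) = ENNReal.ofReal 2 := by simp
      rw [this]
      exact ENNReal.ofReal_le_ofReal hb
    calc 2 * ENNReal.ofReal (b' - a') * ENNReal.ofReal (b - a) ^ 2 * R
        ≤ 2 * ENNReal.ofReal (b' - a') * 2 ^ 2 * R := by gcongr
      _ = ENNReal.ofReal (b' - a') * (8 * R) := by ring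
  rw [mul_add]
  exact add_le_add h1 h2

theorem lint_xy {F : ℂ → ℝ≥0∞} (hF : AEMeasurable F) :
    ∫⁻ z, F z = ∫⁻ x : ℝ, ∫⁻ y : ℝ, F ⟨x, y⟩ := by
  have h := (Complex.volume_preserving_equiv_real_prod.symm).lintegral_comp_emb
    Complex.measurableEquivRealProd.symm.measurableEmbedding F
  rw [← h, Measure.volume_eq_prod, lintegral_prod]
  · rfl
  · have := hF.comp_quasiMeasurePreserving
      (Complex.volume_preserving_equiv_real_prod.symm).quasiMeasurePreserving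
    rwa [← Measure.volume_eq_prod]

theorem lint_yx {F : ℂ → ℝ≥0∞} (hF : AEMeasurable F) :
    ∫⁻ z, F z = ∫⁻ y : ℝ, ∫⁻ x : ℝ, F ⟨x, y⟩ := by
  have h := (Complex.volume_preserving_equiv_real_prod.symm).lintegral_comp_emb
    Complex.measurableEquivRealProd.symm.measurableEmbedding F
  rw [← h, Measure.volume_eq_prod, lintegral_prod_symm]
  · rfl
  · have := hF.comp_quasiMeasurePreserving
      (Complex.volume_preserving_equiv_real_prod.symm).quasiMeasurePreserving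
    rwa [← Measure.volume_eq_prod]

theorem aem_xy {F : ℂ → ℝ≥0∞} (hF : AEMeasurable F) :
    AEMeasurable (fun x : ℝ => ∫⁻ y : ℝ, F ⟨x, y⟩) := by
  have := hF.comp_quasiMeasurePreserving
      (Complex.volume_preserving_equiv_real_prod.symm).quasiMeasurePreserving
  rw [Measure.volume_eq_prod] at this
  exact this.lintegral_prod_right'

theorem aem_yx {F : ℂ → ℝ≥0∞} (hF : AEMeasurable F) :
    AEMeasurable (fun y : ℝ => ∫⁻ x : ℝ, F ⟨x, y⟩) := by
  have := hF.comp_quasiMeasurePreserving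
      (Complex.volume_preserving_equiv_real_prod.symm).quasiMeasurePreserving
  rw [Measure.volume_eq_prod] at this
  exact this.prod_swap.lintegral_prod_right'

/-- partial derivatives -/
noncomputable def dx (u : ℂ → ℂ) (z : ℂ) : ℂ := fderiv ℝ u z 1
/-- partial derivatives -/
noncomputable def dy (u : ℂ → ℂ) (z : ℂ) : ℂ := fderiv ℝ u z Complex.I

/-- `(-i∂₁ - A₁) u` -/
noncomputable def D1 (A₁ : ℂ → ℝ) (u : ℂ → ℂ) (z : ℂ) : ℂ := -Complex.I * dx u z - A₁ z * u z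
/-- `(-i∂₂ - A₂) u` -/
noncomputable def D2 (A₂ : ℂ → ℝ) (u : ℂ → ℂ) (z : ℂ) : ℂ := -Complex.I * dy u z - A₂ z * u z

theorem mem_disk {x y : ℝ} : (⟨x, y⟩ : ℂ) ∈ ball (0 : ℂ) 1 ↔ x ^ 2 + y ^ 2 < 1 := by
  rw [mem_ball_zero_iff, ← sq_lt_one_iff₀ (norm_nonneg _), Complex.sq_norm, Complex.normSq_mk]
  constructor <;> intro h <;> nlinarith

theorem sec_y {x : ℝ} (y : ℝ) : x ^ 2 + y ^ 2 < 1 ↔ y ∈ Ioo (-√(1 - x ^ 2)) (√(1 - x ^ 2)) := by
  rw [mem_Ioo, ← abs_lt, Real.lt_sqrt (abs_nonneg _), sq_abs]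
  constructor <;> intro h <;> linarith

theorem hasDeriv_y {u : ℂ → ℂ} (hu : ContDiffOn ℝ 1 u (ball 0 1)) {x y : ℝ}
    (h : (⟨x, y⟩ : ℂ) ∈ ball (0 : ℂ) 1) :
    HasDerivAt (fun t : ℝ => u ⟨x, t⟩) (dy u ⟨x, y⟩) y := by
  have h1 : DifferentiableAt ℝ u ⟨x, y⟩ :=
    (hu.differentiableOn one_ne_zero).differentiableAt (isOpen_ball.mem_nhds h)
  have h2 : HasDerivAt (fun t : ℝ => (⟨x, t⟩ : ℂ)) Complex.I y := by
    have : (fun t : ℝ => (⟨x, t⟩ : ℂ)) = fun t : ℝ => (x : ℂ) + t * Complex.I := by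
      ext t; exact Complex.mk_eq_add_mul_I x t
    rw [this]
    have := ((Complex.ofRealCLM.hasDerivAt (x := y)).mul_const Complex.I).const_add (x : ℂ)
    simpa using this
  exact h1.hasFDerivAt.comp_hasDerivAt y h2

theorem hasDeriv_x {u : ℂ → ℂ} (hu : ContDiffOn ℝ 1 u (ball 0 1)) {x y : ℝ}
    (h : (⟨x, y⟩ : ℂ) ∈ ball (0 : ℂ) 1) :
    HasDerivAt (fun t : ℝ => u ⟨t, y⟩) (dx u ⟨x, y⟩) x := by
  have h1 : DifferentiableAt ℝ u ⟨x, y⟩ :=
    (hu.differentiableOn one_ne_zero).differentiableAt (isOpen_ball.mem_nhds h)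
  have h2 : HasDerivAt (fun t : ℝ => (⟨t, y⟩ : ℂ)) 1 x := by
    have : (fun t : ℝ => (⟨t, y⟩ : ℂ)) = fun t : ℝ => (t : ℂ) + y * Complex.I := by
      ext t; exact Complex.mk_eq_add_mul_I t y
    rw [this]
    have := (Complex.ofRealCLM.hasDerivAt (x := x)).add_const ((y : ℂ) * Complex.I)
    simpa using this
  exact h1.hasFDerivAt.comp_hasDerivAt x h2

theorem contOn_dy {u : ℂ → ℂ} (hu : ContDiffOn ℝ 1 u (ball 0 1)) :
    ContinuousOn (dy u) (ball 0 1) :=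
  (hu.continuousOn_fderiv_of_isOpen isOpen_ball le_rfl).clm_apply continuousOn_const

theorem contOn_dx {u : ℂ → ℂ} (hu : ContDiffOn ℝ 1 u (ball 0 1)) :
    ContinuousOn (dx u) (ball 0 1) :=
  (hu.continuousOn_fderiv_of_isOpen isOpen_ball le_rfl).clm_apply continuousOn_const

theorem cont_mk_y (x : ℝ) : Continuous fun t : ℝ => (⟨x, t⟩ : ℂ) := by
  have : (fun t : ℝ => (⟨x, t⟩ : ℂ)) = fun t : ℝ => (x : ℂ) + t * Complex.I := by
    ext t; exact Complex.mk_eq_add_mul_I x t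
  rw [this]; fun_prop

theorem cont_mk_x (y : ℝ) : Continuous fun t : ℝ => (⟨t, y⟩ : ℂ) := by
  have : (fun t : ℝ => (⟨t, y⟩ : ℂ)) = fun t : ℝ => (t : ℂ) + y * Complex.I := by
    ext t; exact Complex.mk_eq_add_mul_I t y
  rw [this]; fun_prop

/-- The thin rectangle. -/
def core (ε : ℝ) : Set ℂ := {z | |z.re| < 2 / 5 ∧ |z.im| < ε / 2}

/-- The middle strip of the disk. -/
def strip : Set ℂ := {z | z ∈ ball (0 : ℂ) 1 ∧ |z.re| < 2 / 5}

theorem core_meas (ε : ℝ) : MeasurableSet (core ε) := by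
  apply MeasurableSet.inter
  · exact measurableSet_lt (Complex.measurable_re.abs) measurable_const
  · exact measurableSet_lt (Complex.measurable_im.abs) measurable_const

theorem strip_meas : MeasurableSet strip := by
  apply MeasurableSet.inter
  · exact measurableSet_ball
  · exact measurableSet_lt (Complex.measurable_re.abs) measurable_const

theorem core_sub {ε : ℝ} (hε : ε ≤ 4 / 5) : core ε ⊆ strip := by
  intro z hz
  refine ⟨?_, hz.1⟩
  have := mem_disk (x := z.re) (y := z.im)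
  rw [Complex.eta] at this
  rw [this]
  have h1 := hz.1
  have h2 := hz.2
  have h3 : |z.im| < 2 / 5 := by linarith
  have h4 : z.re ^ 2 < (2/5) ^ 2 := sq_lt_sq' (by linarith [(abs_lt.1 h1).1]) (abs_lt.1 h1).2
  have h5 : z.im ^ 2 < (2/5) ^ 2 := sq_lt_sq' (by linarith [(abs_lt.1 h3).1]) (abs_lt.1 h3).2
  linarith

theorem aem {S : Set ℂ} (hS : MeasurableSet S) (hSD : S ⊆ ball 0 1) {g : ℂ → ℂ}
    (hg : ContinuousOn g (ball 0 1)) :
    AEMeasurable (S.indicator fun z => ‖g z‖ₑ ^ 2) := by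
  rw [aemeasurable_indicator_iff hS]
  exact (((hg.mono hSD).aestronglyMeasurable hS).enorm).pow_const 2

theorem step_y {u : ℂ → ℂ} (hu : ContDiffOn ℝ 1 u (ball 0 1)) {A₂ : ℂ → ℝ}
    (hA₂ : Continuous A₂) {ε : ℝ} (hε0 : 0 < ε) (hε : ε ≤ 4 / 5) :
    ∫⁻ z in strip, ‖u z‖ₑ ^ 2 ≤ ENNReal.ofReal (4 / ε) * (∫⁻ z in core ε, ‖u z‖ₑ ^ 2) +
      8 * ∫⁻ z in ball (0 : ℂ) 1, ‖D2 A₂ u z‖ₑ ^ 2 := by
  have huc := hu.continuousOn
  have hD2c : ContinuousOn (D2 A₂ u) (ball 0 1) := by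
    unfold D2
    exact (continuousOn_const.mul (contOn_dy hu)).sub
      ((Complex.continuous_ofReal.comp hA₂).continuousOn.mul huc)
  have hsub : strip ⊆ ball (0 : ℂ) 1 := fun z hz => hz.1
  rw [← lintegral_indicator strip_meas, ← lintegral_indicator (core_meas ε),
    ← lintegral_indicator measurableSet_ball]
  rw [lint_xy (aem strip_meas hsub huc), lint_xy (aem (core_meas ε) ((core_sub hε).trans hsub) huc),
    lint_xy (aem measurableSet_ball subset_rfl hD2c)]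
  rw [← lintegral_const_mul' _ _ ENNReal.ofReal_ne_top, ← lintegral_const_mul' _ _ (by norm_num),
    ← lintegral_add_left' ((aem_xy (aem (core_meas ε) ((core_sub hε).trans hsub) huc)).const_mul _)]
  refine lintegral_mono fun x => ?_
  by_cases hx : |x| < 2 / 5
  · have hx1 : x ^ 2 < (2/5)^2 := sq_lt_sq' (by linarith [(abs_lt.1 hx).1]) (abs_lt.1 hx).2
    set Y := √(1 - x ^ 2) with hY
    have hY0 : 4/5 < Y := by
      rw [hY, Real.lt_sqrt (by norm_num)]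
      norm_num at hx1 ⊢
      linarith
    have hY1 : Y ≤ 1 := by
      rw [hY]
      apply Real.sqrt_le_one.2 <;> nlinarith [sq_nonneg x]
    have e1 : ∫⁻ y, strip.indicator (fun z => ‖u z‖ₑ ^ 2) ⟨x, y⟩ =
        ∫⁻ y in Ioo (-Y) Y, ‖u ⟨x, y⟩‖ₑ ^ 2 := by
      rw [← lintegral_indicator measurableSet_Ioo]
      refine lintegral_congr fun y => ?_
      by_cases h : y ∈ Ioo (-Y) Y
      · rw [indicator_of_mem h, indicator_of_mem]
        exact ⟨mem_disk.2 ((sec_y y).2 h), hx⟩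
      · rw [indicator_of_notMem h, indicator_of_notMem]
        intro h'
        exact h ((sec_y y).1 (mem_disk.1 h'.1))
    have e2 : ∫⁻ y, (core ε).indicator (fun z => ‖u z‖ₑ ^ 2) ⟨x, y⟩ =
        ∫⁻ y in Ioo (-(ε/2)) (ε/2), ‖u ⟨x, y⟩‖ₑ ^ 2 := by
      rw [← lintegral_indicator measurableSet_Ioo]
      refine lintegral_congr fun y => ?_
      by_cases h : y ∈ Ioo (-(ε/2)) (ε/2)
      · rw [indicator_of_mem h, indicator_of_mem]
        exact ⟨hx, abs_lt.2 h⟩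
      · rw [indicator_of_notMem h, indicator_of_notMem]
        intro h'
        exact h (abs_lt.1 h'.2)
    have e3 : ∫⁻ y, (ball (0:ℂ) 1).indicator (fun z => ‖D2 A₂ u z‖ₑ ^ 2) ⟨x, y⟩ =
        ∫⁻ y in Ioo (-Y) Y, ‖D2 A₂ u ⟨x, y⟩‖ₑ ^ 2 := by
      rw [← lintegral_indicator measurableSet_Ioo]
      refine lintegral_congr fun y => ?_
      by_cases h : y ∈ Ioo (-Y) Y
      · rw [indicator_of_mem h, indicator_of_mem]
        exact mem_disk.2 ((sec_y y).2 h)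
      · rw [indicator_of_notMem h, indicator_of_notMem]
        intro h'
        exact h ((sec_y y).1 (mem_disk.1 h'))
    simp only [e1, e2, e3]
    have hmem : ∀ t ∈ Ioo (-Y) Y, (⟨x, t⟩ : ℂ) ∈ ball (0:ℂ) 1 := fun t ht =>
      mem_disk.2 ((sec_y t).2 ht)
    have := poin2 (a := -Y) (b := Y) (a' := -(ε/2)) (b' := ε/2) (c := 2 / ε)
      (f := fun y => u ⟨x, y⟩) (f' := fun y => dy u ⟨x, y⟩) (α := fun y => A₂ ⟨x, y⟩)
      (hA₂.comp (cont_mk_y x)) (fun t ht => hasDeriv_y hu (hmem t ht))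
      ((contOn_dy hu).comp (cont_mk_y x).continuousOn hmem) (by linarith) (by linarith)
      (Ioo_subset_Ioo (by linarith) (by linarith))
      (by rw [div_mul_eq_mul_div, le_div_iff₀ hε0]; nlinarith) (by linarith)
    have h4 : 2 * (2 / ε) = 4 / ε := by ring
    rw [h4] at this
    exact this
  · have e1 : ∫⁻ y, strip.indicator (fun z => ‖u z‖ₑ ^ 2) ⟨x, y⟩ = 0 := by
      rw [lintegral_eq_zero_of_ae_eq_zero]
      refine Filter.Eventually.of_forall fun y => ?_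
      exact indicator_of_notMem (fun h => hx h.2) _
    simp only [e1]
    exact zero_le

theorem step_x {u : ℂ → ℂ} (hu : ContDiffOn ℝ 1 u (ball 0 1)) {A₁ : ℂ → ℝ}
    (hA₁ : Continuous A₁) :
    ∫⁻ z in ball (0 : ℂ) 1, ‖u z‖ₑ ^ 2 ≤ 5 * (∫⁻ z in strip, ‖u z‖ₑ ^ 2) +
      8 * ∫⁻ z in ball (0 : ℂ) 1, ‖D1 A₁ u z‖ₑ ^ 2 := by
  have huc := hu.continuousOn
  have hD1c : ContinuousOn (D1 A₁ u) (ball 0 1) := by
    unfold D1
    exact (continuousOn_const.mul (contOn_dx hu)).sub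
      ((Complex.continuous_ofReal.comp hA₁).continuousOn.mul huc)
  have hsub : strip ⊆ ball (0 : ℂ) 1 := fun z hz => hz.1
  rw [← lintegral_indicator strip_meas,
    ← lintegral_indicator measurableSet_ball, ← lintegral_indicator measurableSet_ball]
  rw [lint_yx (aem strip_meas hsub huc), lint_yx (aem measurableSet_ball subset_rfl huc),
    lint_yx (aem measurableSet_ball subset_rfl hD1c)]
  rw [← lintegral_const_mul' _ _ (by norm_num), ← lintegral_const_mul' _ _ (by norm_num),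
    ← lintegral_add_left' ((aem_yx (aem strip_meas hsub huc)).const_mul _)]
  refine lintegral_mono fun y => ?_
  have hcomm : ∀ x : ℝ, x ^ 2 + y ^ 2 < 1 ↔ x ∈ Ioo (-√(1 - y ^ 2)) (√(1 - y ^ 2)) := by
    intro x; rw [add_comm]; exact sec_y x
  by_cases hy : |y| < 1
  · have hy1 : y ^ 2 < 1 := by rwa [sq_lt_one_iff_abs_lt_one]
    set X := √(1 - y ^ 2) with hX
    have hX0 : 0 < X := Real.sqrt_pos.2 (by linarith)
    have hX1 : X ≤ 1 := by
      rw [hX]
      apply Real.sqrt_le_one.2 <;> nlinarith [sq_nonneg y]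
    set β := min X (2/5) with hβ
    have hβ0 : 0 < β := lt_min hX0 (by norm_num)
    have e1 : ∫⁻ x, strip.indicator (fun z => ‖u z‖ₑ ^ 2) ⟨x, y⟩ =
        ∫⁻ x in Ioo (-β) β, ‖u ⟨x, y⟩‖ₑ ^ 2 := by
      rw [← lintegral_indicator measurableSet_Ioo]
      refine lintegral_congr fun x => ?_
      by_cases h : x ∈ Ioo (-β) β
      · have h1 : |x| < β := abs_lt.2 h
        rw [indicator_of_mem h, indicator_of_mem]
        exact ⟨mem_disk.2 ((hcomm x).2 (abs_lt.1 (h1.trans_le (min_le_left _ _)))),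
          h1.trans_le (min_le_right _ _)⟩
      · rw [indicator_of_notMem h, indicator_of_notMem]
        intro h'
        apply h
        rw [mem_Ioo, ← abs_lt]
        exact lt_min (abs_lt.2 ((hcomm x).1 (mem_disk.1 h'.1))) h'.2
    have e2 : ∫⁻ x, (ball (0:ℂ) 1).indicator (fun z => ‖u z‖ₑ ^ 2) ⟨x, y⟩ =
        ∫⁻ x in Ioo (-X) X, ‖u ⟨x, y⟩‖ₑ ^ 2 := by
      rw [← lintegral_indicator measurableSet_Ioo]
      refine lintegral_congr fun x => ?_
      by_cases h : x ∈ Ioo (-X) X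
      · rw [indicator_of_mem h, indicator_of_mem]
        exact mem_disk.2 ((hcomm x).2 h)
      · rw [indicator_of_notMem h, indicator_of_notMem]
        intro h'
        exact h ((hcomm x).1 (mem_disk.1 h'))
    have e3 : ∫⁻ x, (ball (0:ℂ) 1).indicator (fun z => ‖D1 A₁ u z‖ₑ ^ 2) ⟨x, y⟩ =
        ∫⁻ x in Ioo (-X) X, ‖D1 A₁ u ⟨x, y⟩‖ₑ ^ 2 := by
      rw [← lintegral_indicator measurableSet_Ioo]
      refine lintegral_congr fun x => ?_
      by_cases h : x ∈ Ioo (-X) X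
      · rw [indicator_of_mem h, indicator_of_mem]
        exact mem_disk.2 ((hcomm x).2 h)
      · rw [indicator_of_notMem h, indicator_of_notMem]
        intro h'
        exact h ((hcomm x).1 (mem_disk.1 h'))
    simp only [e1, e2, e3]
    have hmem : ∀ t ∈ Ioo (-X) X, (⟨t, y⟩ : ℂ) ∈ ball (0:ℂ) 1 := fun t ht =>
      mem_disk.2 ((hcomm t).2 ht)
    have hX2 : X ≤ 5/2 * β := by
      rw [hβ]
      rcases le_total X (2/5) with h | h
      · rw [min_eq_left h]; linarith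
      · rw [min_eq_right h]; linarith
    have := poin2 (a := -X) (b := X) (a' := -β) (b' := β) (c := 5/2)
      (f := fun x => u ⟨x, y⟩) (f' := fun x => dx u ⟨x, y⟩) (α := fun x => A₁ ⟨x, y⟩)
      (hA₁.comp (cont_mk_x y)) (fun t ht => hasDeriv_x hu (hmem t ht))
      ((contOn_dx hu).comp (cont_mk_x y).continuousOn hmem) (by linarith) (by linarith)
      (Ioo_subset_Ioo (by linarith [min_le_left X (2/5)]) (min_le_left X (2/5)))
      (by linarith) (by linarith)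
    have h4 : ENNReal.ofReal (2 * (5 / 2)) = 5 := by norm_num
    rw [h4] at this
    exact this
  · have e1 : ∫⁻ x, (ball (0:ℂ) 1).indicator (fun z => ‖u z‖ₑ ^ 2) ⟨x, y⟩ = 0 := by
      rw [lintegral_eq_zero_of_ae_eq_zero]
      refine Filter.Eventually.of_forall fun x => ?_
      apply indicator_of_notMem
      intro h
      apply hy
      rw [← sq_lt_one_iff_abs_lt_one]
      have := mem_disk.1 h
      nlinarith [sq_nonneg x]
    simp only [e1]
    exact zero_le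

/-- energy -/
noncomputable def en (A₁ A₂ : ℂ → ℝ) (u : ℂ → ℂ) (S : Set ℂ) : ℝ≥0∞ :=
  ∫⁻ z in S, (‖D1 A₁ u z‖ₑ ^ 2 + ‖D2 A₂ u z‖ₑ ^ 2)

theorem poinD {u : ℂ → ℂ} (hu : ContDiffOn ℝ 1 u (ball 0 1)) {A₁ A₂ : ℂ → ℝ}
    (hA₁ : Continuous A₁) (hA₂ : Continuous A₂) {ε : ℝ} (hε0 : 0 < ε) (hε : ε ≤ 4 / 5) :
    ∫⁻ z in ball (0 : ℂ) 1, ‖u z‖ₑ ^ 2 ≤
      ENNReal.ofReal (20 / ε) * (∫⁻ z in core ε, ‖u z‖ₑ ^ 2) + 40 * en A₁ A₂ u (ball 0 1) := by
  have h1 := step_x hu hA₁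
  have h2 := step_y hu hA₂ hε0 hε
  have huc := hu.continuousOn
  have hD1c : ContinuousOn (D1 A₁ u) (ball 0 1) := by
    unfold D1
    exact (continuousOn_const.mul (contOn_dx hu)).sub
      ((Complex.continuous_ofReal.comp hA₁).continuousOn.mul huc)
  have h3 : en A₁ A₂ u (ball 0 1) = (∫⁻ z in ball (0 : ℂ) 1, ‖D1 A₁ u z‖ₑ ^ 2) +
      ∫⁻ z in ball (0 : ℂ) 1, ‖D2 A₂ u z‖ₑ ^ 2 := by
    unfold en
    rw [lintegral_add_left']
    exact ((hD1c.aestronglyMeasurable measurableSet_ball).enorm).pow_const 2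
  rw [h3]
  set a := ∫⁻ z in ball (0 : ℂ) 1, ‖D1 A₁ u z‖ₑ ^ 2
  set b := ∫⁻ z in ball (0 : ℂ) 1, ‖D2 A₂ u z‖ₑ ^ 2
  set k := ∫⁻ z in core ε, ‖u z‖ₑ ^ 2
  calc _ ≤ 5 * (∫⁻ z in strip, ‖u z‖ₑ ^ 2) + 8 * a := h1
    _ ≤ 5 * (ENNReal.ofReal (4 / ε) * k + 8 * b) + 8 * a := by gcongr
    _ = (5 * ENNReal.ofReal (4 / ε)) * k + (40 * b + 8 * a) := by ring
    _ ≤ ENNReal.ofReal (20 / ε) * k + (40 * b + 40 * a) := by
        gcongr
        · have : (5 : ℝ≥0∞) = ENNReal.ofReal 5 := by simp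
          rw [this, ← ENNReal.ofReal_mul (by norm_num)]
          apply ENNReal.ofReal_le_ofReal
          apply le_of_eq; ring
        · norm_num
    _ = _ := by ring

end Pool.Agent.V1186.Mag
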