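import Pool.Agent.V1186.Mag.Disk

set_option autoImplicit false

/-!
Logarithmic cutoff test functions for the disk with integer flux.
-/

namespace Pool.Agent.V1186.Mag

open MeasureTheory Set Metric Filter Topology
open scoped ContDiff NNReal

/-- smooth radial transition from `0` (`|z| ≤ 1/2`) to `1` (`|z| ≥ 1`) -/
noncomputable def psi (z : ℂ) : ℝ := Real.smoothTransition ((4 * ‖z‖ ^ 2 - 1) / 3)

theorem psi_smooth : ContDiff ℝ ∞ psi :=
  Real.smoothTransition.contDiff.comp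
    (((contDiff_const.mul (contDiff_norm_sq ℝ)).sub contDiff_const).div_const _)

theorem psi_nonneg (z : ℂ) : 0 ≤ psi z := Real.smoothTransition.nonneg _
theorem psi_le_one (z : ℂ) : psi z ≤ 1 := Real.smoothTransition.le_one _

theorem psi_zero {z : ℂ} (h : ‖z‖ ≤ 1 / 2) : psi z = 0 := by
  apply Real.smoothTransition.zero_of_nonpos
  have := pow_le_pow_left₀ (norm_nonneg z) h 2
  linarith

theorem psi_one {z : ℂ} (h : 1 ≤ ‖z‖) : psi z = 1 := by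
  apply Real.smoothTransition.one_of_one_le
  have := pow_le_pow_left₀ zero_le_one h 2
  linarith

theorem dpsi_zero {z : ℂ} (h : ‖z‖ ≤ 1 / 2) : fderiv ℝ psi z = 0 := by
  apply IsLocalMin.fderiv_eq_zero
  exact Eventually.of_forall fun w => by rw [psi_zero h]; exact psi_nonneg w

theorem dpsi_one {z : ℂ} (h : 1 ≤ ‖z‖) : fderiv ℝ psi z = 0 := by
  apply IsLocalMax.fderiv_eq_zero
  exact Eventually.of_forall fun w => by rw [psi_one h]; exact psi_le_one w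

theorem dpsi_bdd : ∃ C : ℝ, 0 ≤ C ∧ ∀ z, ‖fderiv ℝ psi z‖ ≤ C := by
  have ne : (∞ : ℕ∞ω) ≠ 0 := by simp
  have hc : HasCompactSupport (fderiv ℝ psi) := by
    apply HasCompactSupport.of_support_subset_isCompact (isCompact_closedBall (0:ℂ) 1)
    intro z hz
    rw [mem_closedBall_zero_iff]
    by_contra h
    exact hz (dpsi_one (not_le.1 h).le)
  obtain ⟨C, hC⟩ := (psi_smooth.continuous_fderiv ne).bounded_above_of_compact_support hc
  exact ⟨C, (norm_nonneg _).trans (hC 0), hC⟩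

/-- the logarithmic cutoff -/
noncomputable def gg (N : ℕ) (z : ℂ) : ℝ := (N : ℝ)⁻¹ * ∑ j ∈ Finset.range N, psi ((2:ℝ) ^ (j + 1) • z)

theorem gg_smooth (N : ℕ) : ContDiff ℝ ∞ (gg N) := by
  unfold gg
  exact contDiff_const.mul (ContDiff.sum fun j _ => psi_smooth.comp (contDiff_const_smul _))

theorem gg_nonneg (N : ℕ) (z : ℂ) : 0 ≤ gg N z :=
  mul_nonneg (by positivity) (Finset.sum_nonneg fun j _ => psi_nonneg _)

theorem gg_le_one {N : ℕ} (z : ℂ) : gg N z ≤ 1 := by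
  unfold gg
  have h1 : ∑ j ∈ Finset.range N, psi ((2:ℝ) ^ (j + 1) • z) ≤ ∑ j ∈ Finset.range N, (1:ℝ) :=
    Finset.sum_le_sum fun j _ => psi_le_one _
  simp only [Finset.sum_const, Finset.card_range, nsmul_eq_mul, mul_one] at h1
  rcases Nat.eq_zero_or_pos N with h | h
  · subst h; simp
  · rw [inv_mul_le_iff₀ (by exact_mod_cast h), mul_one]; exact h1

theorem gg_one {N : ℕ} (hN : 1 ≤ N) {z : ℂ} (h : 1 / 2 ≤ ‖z‖) : gg N z = 1 := by
  unfold gg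
  have h1 : ∀ j ∈ Finset.range N, psi ((2:ℝ) ^ (j + 1) • z) = 1 := by
    intro j _
    apply psi_one
    rw [norm_smul, norm_pow, Real.norm_eq_abs, abs_of_pos (by norm_num : (0:ℝ) < 2), pow_succ]
    have : (1:ℝ) ≤ 2 ^ j := one_le_pow₀ (by norm_num)
    nlinarith
  rw [Finset.sum_congr rfl h1]
  simp only [Finset.sum_const, Finset.card_range, nsmul_eq_mul, mul_one]
  have : (N : ℝ) ≠ 0 := by exact_mod_cast (by omega : N ≠ 0)
  exact inv_mul_cancel₀ this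

theorem gg_zero {N : ℕ} {z : ℂ} (h : ‖z‖ ≤ (1 / 2) ^ (N + 1)) : gg N z = 0 := by
  unfold gg
  have h1 : ∀ j ∈ Finset.range N, psi ((2:ℝ) ^ (j + 1) • z) = 0 := by
    intro j hj
    apply psi_zero
    rw [norm_smul, norm_pow, Real.norm_eq_abs, abs_of_pos (by norm_num : (0:ℝ) < 2)]
    have hj' : j + 1 ≤ N := Finset.mem_range.1 hj
    have h2 : (2:ℝ) ^ (j + 1) ≤ 2 ^ N := pow_le_pow_right₀ (by norm_num) hj'
    calc (2:ℝ) ^ (j + 1) * ‖z‖ ≤ 2 ^ N * (1 / 2) ^ (N + 1) := by gcongr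
      _ = 1 / 2 := by
        rw [pow_succ, ← mul_assoc, ← mul_pow]; norm_num
  rw [Finset.sum_congr rfl h1]
  simp

theorem dgg (N : ℕ) (z v : ℂ) : fderiv ℝ (gg N) z v =
    (N : ℝ)⁻¹ * ∑ j ∈ Finset.range N, (2:ℝ) ^ (j + 1) * fderiv ℝ psi ((2:ℝ) ^ (j + 1) • z) v := by
  have ne : (∞ : ℕ∞ω) ≠ 0 := by simp
  have h1 : ∀ j ∈ Finset.range N, HasFDerivAt (fun z => psi ((2:ℝ) ^ (j + 1) • z))
      ((fderiv ℝ psi ((2:ℝ) ^ (j + 1) • z)).comp ((2:ℝ) ^ (j + 1) • ContinuousLinearMap.id ℝ ℂ)) z := by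
    intro j _
    have h2 : HasFDerivAt (fun z : ℂ => (2:ℝ) ^ (j + 1) • z)
        ((2:ℝ) ^ (j + 1) • ContinuousLinearMap.id ℝ ℂ) z :=
      ((2:ℝ) ^ (j + 1) • ContinuousLinearMap.id ℝ ℂ).hasFDerivAt
    exact ((psi_smooth.differentiable ne) _).hasFDerivAt.comp z h2
  have h3 := (HasFDerivAt.fun_sum h1).const_mul ((N:ℝ)⁻¹)
  have h4 : HasFDerivAt (gg N) _ z := h3
  rw [h4.fderiv]
  simp [Finset.mul_sum]

theorem dgg_sq (N : ℕ) (z v : ℂ) : (fderiv ℝ (gg N) z v) ^ 2 =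
    ((N : ℝ)⁻¹) ^ 2 * ∑ j ∈ Finset.range N,
      ((2:ℝ) ^ (j + 1) * fderiv ℝ psi ((2:ℝ) ^ (j + 1) • z) v) ^ 2 := by
  rw [dgg, mul_pow]
  congr 1
  rw [sq, Finset.sum_mul_sum]
  refine Finset.sum_congr rfl fun i hi => ?_
  rw [Finset.sum_eq_single_of_mem i hi]
  · ring
  · intro j _ hij
    have hnorm : ∀ k : ℕ, ‖(2:ℝ) ^ (k + 1) • z‖ = 2 ^ (k + 1) * ‖z‖ := by
      intro k
      rw [norm_smul, norm_pow, Real.norm_eq_abs, abs_of_pos (by norm_num : (0:ℝ) < 2)]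
    -- at most one of the two gradients is nonzero
    have key : ∀ a b : ℕ, a < b → fderiv ℝ psi ((2:ℝ) ^ (a + 1) • z) = 0 ∨
        fderiv ℝ psi ((2:ℝ) ^ (b + 1) • z) = 0 := by
      intro a b hab
      by_cases h : ‖(2:ℝ) ^ (a + 1) • z‖ ≤ 1 / 2
      · exact Or.inl (dpsi_zero h)
      · right
        apply dpsi_one
        rw [hnorm] at h ⊢
        push Not at h
        have h2 : (2:ℝ) ^ (a + 1) * 2 ≤ 2 ^ (b + 1) := by
          rw [← pow_succ]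
          exact pow_le_pow_right₀ (by norm_num) (by omega)
        nlinarith [norm_nonneg z]
    rcases lt_or_gt_of_ne hij with h | h
    · rcases key j i h with h' | h' <;> rw [h'] <;> simp
    · rcases key i j h with h' | h' <;> rw [h'] <;> simp

theorem dgg_int {C : ℝ} (_ : 0 ≤ C) (hC : ∀ z, ‖fderiv ℝ psi z‖ ≤ C) {N : ℕ} (hN : 1 ≤ N) {v : ℂ}
    (hv : ‖v‖ = 1) : ∫⁻ z, ENNReal.ofReal ((fderiv ℝ (gg N) z v) ^ 2) ≤
      ENNReal.ofReal (Real.pi * C ^ 2 / N) := by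
  have hN0 : (0:ℝ) < N := by exact_mod_cast hN
  have h1 : ∀ z, ENNReal.ofReal ((fderiv ℝ (gg N) z v) ^ 2) ≤
      ∑ j ∈ Finset.range N, (ball (0:ℂ) ((1/2) ^ (j + 1))).indicator
        (fun _ => ENNReal.ofReal (((N : ℝ)⁻¹) ^ 2 * ((2:ℝ) ^ (j + 1) * C) ^ 2)) z := by
    intro z
    rw [dgg_sq, Finset.mul_sum, ENNReal.ofReal_sum_of_nonneg (fun j _ => by positivity)]
    refine Finset.sum_le_sum fun j _ => ?_
    by_cases h : z ∈ ball (0:ℂ) ((1/2) ^ (j + 1))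
    · rw [indicator_of_mem h]
      apply ENNReal.ofReal_le_ofReal
      have h2 : |fderiv ℝ psi ((2:ℝ) ^ (j + 1) • z) v| ≤ C := by
        have := (fderiv ℝ psi ((2:ℝ) ^ (j + 1) • z)).le_opNorm v
        rw [hv, mul_one, Real.norm_eq_abs] at this
        exact this.trans (hC _)
      have h3 : ((2:ℝ) ^ (j + 1) * fderiv ℝ psi ((2:ℝ) ^ (j + 1) • z) v) ^ 2 ≤
          ((2:ℝ) ^ (j + 1) * C) ^ 2 := by
        rw [mul_pow, mul_pow]
        apply mul_le_mul_of_nonneg_left _ (by positivity)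
        exact sq_le_sq' (by linarith [(abs_le.1 h2).1]) (abs_le.1 h2).2
      exact mul_le_mul_of_nonneg_left h3 (by positivity)
    · rw [indicator_of_notMem h]
      have h2 : fderiv ℝ psi ((2:ℝ) ^ (j + 1) • z) = 0 := by
        apply dpsi_one
        rw [norm_smul, norm_pow, Real.norm_eq_abs, abs_of_pos (by norm_num : (0:ℝ) < 2)]
        rw [mem_ball_zero_iff, not_lt] at h
        calc (1:ℝ) = 2 ^ (j + 1) * (1/2) ^ (j + 1) := by rw [← mul_pow]; norm_num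
          _ ≤ _ := by gcongr
      rw [h2]; simp
  refine (lintegral_mono h1).trans ?_
  rw [lintegral_finsetSum _ (fun j _ => measurable_const.indicator measurableSet_ball)]
  have h4 : ∀ j ∈ Finset.range N, ∫⁻ z, (ball (0:ℂ) ((1/2) ^ (j + 1))).indicator
      (fun _ => ENNReal.ofReal (((N : ℝ)⁻¹) ^ 2 * ((2:ℝ) ^ (j + 1) * C) ^ 2)) z =
      ENNReal.ofReal (((N : ℝ)⁻¹) ^ 2 * (Real.pi * C ^ 2)) := by
    intro j _
    rw [lintegral_indicator measurableSet_ball, setLIntegral_const, Complex.volume_ball]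
    rw [← ENNReal.ofReal_pow (by positivity)]
    have : (NNReal.pi : ENNReal) = ENNReal.ofReal Real.pi := by
      rw [← NNReal.coe_real_pi, ENNReal.ofReal_coe_nnreal]
    rw [this, ← ENNReal.ofReal_mul (by positivity), ← ENNReal.ofReal_mul (by positivity)]
    congr 1
    have h5 : ((2:ℝ) ^ (j + 1)) ^ 2 * ((1/2) ^ (j + 1)) ^ 2 = 1 := by
      rw [← mul_pow, ← mul_pow]; norm_num
    calc ((N : ℝ)⁻¹) ^ 2 * ((2:ℝ) ^ (j + 1) * C) ^ 2 * (((1/2) ^ (j + 1)) ^ 2 * Real.pi)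
        = ((N : ℝ)⁻¹) ^ 2 * (Real.pi * C ^ 2) *
          (((2:ℝ) ^ (j + 1)) ^ 2 * ((1/2) ^ (j + 1)) ^ 2) := by ring
      _ = _ := by rw [h5, mul_one]
  rw [Finset.sum_congr rfl h4]
  simp only [Finset.sum_const, Finset.card_range, nsmul_eq_mul]
  rw [← ENNReal.ofReal_natCast, ← ENNReal.ofReal_mul (by positivity)]
  apply ENNReal.ofReal_le_ofReal
  apply le_of_eq
  field_simp

/-- the phase `(z/|z|)^n` -/
noncomputable def ww (n : ℕ) (z : ℂ) : ℂ := (((‖z‖⁻¹ : ℝ) : ℂ) * z) ^ n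

theorem ww_norm (n : ℕ) {z : ℂ} (hz : z ≠ 0) : ‖ww n z‖ = 1 := by
  unfold ww
  rw [norm_pow, norm_mul, Complex.norm_real, norm_inv, norm_norm,
    inv_mul_cancel₀ (norm_ne_zero_iff.2 hz), one_pow]

theorem ww_smooth (n : ℕ) {z : ℂ} (hz : z ≠ 0) : ContDiffAt ℝ ∞ (ww n) z := by
  unfold ww
  have h1 : ContDiffAt ℝ ∞ (fun z : ℂ => ‖z‖⁻¹) z :=
    (contDiffAt_norm ℝ hz).inv (norm_ne_zero_iff.2 hz)
  have h2 : ContDiffAt ℝ ∞ (fun z : ℂ => ((‖z‖⁻¹ : ℝ) : ℂ)) z :=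
    Complex.ofRealCLM.contDiff.contDiffAt.comp z h1
  exact (h2.mul contDiffAt_id).pow n

/-- derivative of `z / |z|` -/
theorem ee_deriv {z : ℂ} (hz : z ≠ 0) : ∃ L : ℂ →L[ℝ] ℂ,
    HasFDerivAt (fun w : ℂ => (((‖w‖⁻¹ : ℝ) : ℂ) * w)) L z ∧
    ∀ v, L v = Complex.I * (((starRingEnd ℂ z * v).im / ‖z‖ ^ 2 : ℝ) : ℂ) *
      (((‖z‖⁻¹ : ℝ) : ℂ) * z) := by
  have hnz : ‖z‖ ≠ 0 := norm_ne_zero_iff.2 hz
  have hns : HasFDerivAt (fun w : ℂ => ‖w‖ ^ 2)
      ((2 * z.re) • Complex.reCLM + (2 * z.im) • Complex.imCLM) z := by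
    have h1 : HasFDerivAt (fun w : ℂ => w.re ^ 2 + w.im ^ 2)
        ((2 * z.re) • Complex.reCLM + (2 * z.im) • Complex.imCLM) z := by
      have a1 := (Complex.reCLM.hasFDerivAt (x := z)).pow 2
      have a2 := (Complex.imCLM.hasFDerivAt (x := z)).pow 2
      have a3 := a1.add a2
      refine (a3.congr_fderiv ?_)
      ext <;> simp
    have e : (fun w : ℂ => ‖w‖ ^ 2) = fun w : ℂ => w.re ^ 2 + w.im ^ 2 := by
      ext w; rw [Complex.sq_norm, Complex.normSq_apply]; ring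
    rw [e]; exact h1
  have hsq : HasFDerivAt (fun w : ℂ => √(‖w‖ ^ 2)) _ z := hns.sqrt (by positivity)
  have hn : HasFDerivAt (fun w : ℂ => ‖w‖)
      ((1 / (2 * √(‖z‖ ^ 2))) • ((2 * z.re) • Complex.reCLM + (2 * z.im) • Complex.imCLM)) z := by
    have e : (fun w : ℂ => ‖w‖) = fun w : ℂ => √(‖w‖ ^ 2) := by
      ext w; rw [Real.sqrt_sq (norm_nonneg _)]
    rw [e]; exact hsq
  rw [Real.sqrt_sq (norm_nonneg z)] at hn
  have hinv : HasFDerivAt (fun w : ℂ => ‖w‖⁻¹) ((-(‖z‖ ^ 2)⁻¹) •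
      ((1 / (2 * ‖z‖)) • ((2 * z.re) • Complex.reCLM + (2 * z.im) • Complex.imCLM))) z :=
    (hasDerivAt_inv hnz).comp_hasFDerivAt z hn
  have hinvc := (Complex.ofRealCLM.hasFDerivAt (x := ‖z‖⁻¹)).comp z hinv
  have he := hinvc.mul (hasFDerivAt_id (𝕜 := ℝ) z)
  refine ⟨_, he, fun v => ?_⟩
  have hN : ‖z‖ ^ 2 = z.re ^ 2 + z.im ^ 2 := by
    rw [Complex.sq_norm, Complex.normSq_apply]; ring
  have him : (starRingEnd ℂ z * v).im = z.re * v.im - z.im * v.re := by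
    simp; ring
  have h1 : ((((‖z‖⁻¹ : ℝ) : ℂ) • ContinuousLinearMap.id ℝ ℂ +
      z • Complex.ofRealCLM.comp
          (-(‖z‖ ^ 2)⁻¹ • (1 / (2 * ‖z‖)) • ((2 * z.re) • Complex.reCLM + (2 * z.im) • Complex.imCLM)))
      : ℂ →L[ℝ] ℂ) v = ((‖z‖⁻¹ : ℝ) : ℂ) * v + z *
        ((-(‖z‖ ^ 2)⁻¹ * ((1 / (2 * ‖z‖)) * (2 * z.re * v.re + 2 * z.im * v.im)) : ℝ) : ℂ) := by
    simp
    ring
  refine h1.trans ?_
  rw [him]
  clear him h1 he hinvc hinv hn hsq hns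
  revert hnz hN
  generalize ‖z‖ = r
  intro hnz hN
  apply Complex.ext
  · simp only [Complex.add_re, Complex.mul_re, Complex.mul_im, Complex.ofReal_re, Complex.ofReal_im,
      Complex.I_re, Complex.I_im, mul_zero, zero_mul, sub_zero, add_zero, one_mul, zero_sub, zero_add]
    field_simp
    rw [hN]
    ring
  · simp only [Complex.add_im, Complex.mul_re, Complex.mul_im, Complex.ofReal_re, Complex.ofReal_im,
      Complex.I_re, Complex.I_im, mul_zero, zero_mul, sub_zero, add_zero, one_mul, zero_sub, zero_add]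
    field_simp
    rw [hN]
    ring

theorem ww_deriv (n : ℕ) {z : ℂ} (hz : z ≠ 0) (v : ℂ) :
    fderiv ℝ (ww n) z v = Complex.I * ((n * ((starRingEnd ℂ z * v).im / ‖z‖ ^ 2) : ℝ) : ℂ) * ww n z := by
  obtain ⟨L, hL, hLv⟩ := ee_deriv hz
  have hw : HasFDerivAt (ww n) _ z := hL.pow n
  rw [hw.fderiv]
  rcases Nat.eq_zero_or_pos n with h | h
  · subst h; simp
  obtain ⟨m, rfl⟩ : ∃ m, n = m + 1 := ⟨n - 1, by omega⟩
  simp only [smul_apply, hLv, ww, smul_eq_mul, Nat.add_sub_cancel, nsmul_eq_mul]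
  push_cast
  ring

end Pool.Agent.V1186.Mag
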