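import Pool.Agent.V1186.Mag.Up
import Pool.Agent.V1186.Mag.Pot

set_option autoImplicit false

/-!
Upper bound for the disk with integer flux, and the geometry of the ellipse.
-/

namespace Pool.Agent.V1186.Mag

open MeasureTheory Set Metric Filter Topology
open scoped ContDiff NNReal

/-- The test function. -/
noncomputable def tf (N n : ℕ) (z : ℂ) : ℂ := (gg N z : ℂ) * ww n z

theorem tf_zero {N n : ℕ} {z : ℂ} (h : ‖z‖ ≤ (1 / 2) ^ (N + 1)) : tf N n z = 0 := by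
  unfold tf
  rw [gg_zero h]; simp

theorem tf_ev {N n : ℕ} {z : ℂ} (h : ‖z‖ < (1 / 2) ^ (N + 1)) : tf N n =ᶠ[𝓝 z] fun _ => 0 := by
  have : ∀ᶠ w in 𝓝 z, ‖w‖ < (1 / 2) ^ (N + 1) := continuous_norm.continuousAt.eventually_lt_const h
  filter_upwards [this] with w hw
  exact tf_zero hw.le

theorem tf_smooth (N n : ℕ) : ContDiff ℝ ∞ (tf N n) := by
  rw [contDiff_iff_contDiffAt]
  intro z
  by_cases h : ‖z‖ < (1 / 2) ^ (N + 1)
  · exact contDiffAt_const.congr_of_eventuallyEq (tf_ev h)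
  · have hz : z ≠ 0 := by
      rintro rfl
      apply h
      rw [norm_zero]; positivity
    have h2 : ContDiffAt ℝ ∞ (fun z => (gg N z : ℂ)) z :=
      (Complex.ofRealCLM.contDiff.comp (gg_smooth N)).contDiffAt
    exact h2.mul (ww_smooth n hz)

theorem tf_deriv {N n : ℕ} {z : ℂ} (hz : z ≠ 0) (v : ℂ) :
    fderiv ℝ (tf N n) z v = (fderiv ℝ (gg N) z v : ℝ) * ww n z +
      gg N z * (Complex.I * ((n * ((starRingEnd ℂ z * v).im / ‖z‖ ^ 2) : ℝ) : ℂ) * ww n z) := by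
  have ne : (∞ : ℕ∞ω) ≠ 0 := by simp
  have h1 : HasFDerivAt (ww n) (fderiv ℝ (ww n) z) z :=
    ((ww_smooth n hz).differentiableAt ne).hasFDerivAt
  have h2 : HasFDerivAt (fun z => (gg N z : ℂ)) (Complex.ofRealCLM.comp (fderiv ℝ (gg N) z)) z :=
    Complex.ofRealCLM.hasFDerivAt.comp z (((gg_smooth N).differentiable ne) z).hasFDerivAt
  have h3 := (h2.mul h1).fderiv
  rw [show tf N n = (fun z => (gg N z : ℂ)) * ww n from rfl, h3, ← ww_deriv n hz v]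
  simp
  ring

theorem FF_out {R : ℝ} (hR : 0 < R) {z : ℂ} (hz : R ≤ ‖z‖) : FF R z = ((‖z‖ ^ 2)⁻¹ : ℝ) * z := by
  unfold FF mm
  rw [max_eq_right (pow_le_pow_left₀ hR.le hz 2)]

theorem tf_D1 {N n : ℕ} {R : ℝ} (hR : 0 < R) (hRN : R ≤ (1 / 2) ^ (N + 1)) (z : ℂ) :
    ‖D1 (fun z => -(n:ℝ) * (FF R z).im) (tf N n) z‖ₑ ^ 2 ≤
      ENNReal.ofReal ((fderiv ℝ (gg N) z 1) ^ 2) := by
  by_cases h : ‖z‖ < (1 / 2) ^ (N + 1)
  · unfold D1 dx
    rw [tf_zero h.le, (tf_ev h).fderiv_eq]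
    simp
  · push Not at h
    have hz0 : 0 < ‖z‖ := lt_of_lt_of_le (by positivity) h
    have hz : z ≠ 0 := norm_pos_iff.1 hz0
    have e : D1 (fun z => -(n:ℝ) * (FF R z).im) (tf N n) z =
        -Complex.I * (fderiv ℝ (gg N) z 1 : ℝ) * ww n z := by
      unfold D1 dx
      beta_reduce
      rw [tf_deriv hz, FF_out hR (hRN.trans h)]
      unfold tf
      simp only [mul_one, Complex.conj_im, Complex.im_ofReal_mul]
      push_cast
      have hI := Complex.I_mul_I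
      linear_combination (-(gg N z : ℂ) * ((n : ℂ) * (-(z.im : ℂ) / (‖z‖ : ℂ) ^ 2)) * ww n z) * hI
    rw [e, enorm_sq, norm_mul, norm_mul, ww_norm n hz]
    simp

theorem tf_D2 {N n : ℕ} {R : ℝ} (hR : 0 < R) (hRN : R ≤ (1 / 2) ^ (N + 1)) (z : ℂ) :
    ‖D2 (fun z => (n:ℝ) * (FF R z).re) (tf N n) z‖ₑ ^ 2 ≤
      ENNReal.ofReal ((fderiv ℝ (gg N) z Complex.I) ^ 2) := by
  by_cases h : ‖z‖ < (1 / 2) ^ (N + 1)
  · unfold D2 dy
    rw [tf_zero h.le, (tf_ev h).fderiv_eq]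
    simp
  · push Not at h
    have hz0 : 0 < ‖z‖ := lt_of_lt_of_le (by positivity) h
    have hz : z ≠ 0 := norm_pos_iff.1 hz0
    have e : D2 (fun z => (n:ℝ) * (FF R z).re) (tf N n) z =
        -Complex.I * (fderiv ℝ (gg N) z Complex.I : ℝ) * ww n z := by
      unfold D2 dy
      beta_reduce
      rw [tf_deriv hz, FF_out hR (hRN.trans h)]
      unfold tf
      simp only [Complex.mul_im, Complex.conj_re, Complex.I_im, Complex.conj_im, Complex.I_re,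
        Complex.re_ofReal_mul]
      push_cast
      have hI := Complex.I_mul_I
      linear_combination (-(gg N z : ℂ) * ((n : ℂ) * ((z.re : ℂ) / (‖z‖ : ℂ) ^ 2)) * ww n z) * hI
    rw [e, enorm_sq, norm_mul, norm_mul, ww_norm n hz]
    simp

theorem tf_en {C : ℝ} (hC0 : 0 ≤ C) (hC : ∀ z, ‖fderiv ℝ psi z‖ ≤ C) {N n : ℕ} (hN : 1 ≤ N) {R : ℝ}
    (hR : 0 < R) (hRN : R ≤ (1 / 2) ^ (N + 1)) (S : Set ℂ) :
    en (fun z => -(n:ℝ) * (FF R z).im) (fun z => (n:ℝ) * (FF R z).re) (tf N n) S ≤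
      ENNReal.ofReal (2 * (Real.pi * C ^ 2 / N)) := by
  unfold en
  calc ∫⁻ z in S, (‖D1 (fun z => -(n:ℝ) * (FF R z).im) (tf N n) z‖ₑ ^ 2 +
        ‖D2 (fun z => (n:ℝ) * (FF R z).re) (tf N n) z‖ₑ ^ 2)
      ≤ ∫⁻ z, (‖D1 (fun z => -(n:ℝ) * (FF R z).im) (tf N n) z‖ₑ ^ 2 +
        ‖D2 (fun z => (n:ℝ) * (FF R z).re) (tf N n) z‖ₑ ^ 2) := setLIntegral_le_lintegral _ _
    _ ≤ ∫⁻ z, (ENNReal.ofReal ((fderiv ℝ (gg N) z 1) ^ 2) +
          ENNReal.ofReal ((fderiv ℝ (gg N) z Complex.I) ^ 2)) :=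
        lintegral_mono fun z => add_le_add (tf_D1 hR hRN z) (tf_D2 hR hRN z)
    _ = (∫⁻ z, ENNReal.ofReal ((fderiv ℝ (gg N) z 1) ^ 2)) +
          ∫⁻ z, ENNReal.ofReal ((fderiv ℝ (gg N) z Complex.I) ^ 2) := by
        rw [lintegral_add_left]
        exact (((smooth_fderiv_apply (gg_smooth N) 1).continuous.pow 2).measurable).ennreal_ofReal
    _ ≤ ENNReal.ofReal (Real.pi * C ^ 2 / N) + ENNReal.ofReal (Real.pi * C ^ 2 / N) :=
        add_le_add (dgg_int hC0 hC hN (by simp)) (dgg_int hC0 hC hN (by simp))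
    _ = _ := by
        rw [← ENNReal.ofReal_add (by positivity) (by positivity)]
        congr 1; ring

theorem tf_norm_one {N n : ℕ} (hN : 1 ≤ N) {z : ℂ} (h : 1 / 2 ≤ ‖z‖) : ‖tf N n z‖ₑ ^ 2 = 1 := by
  have hz : z ≠ 0 := norm_pos_iff.1 (lt_of_lt_of_le (by norm_num) h)
  rw [enorm_sq]
  unfold tf
  rw [norm_mul, ww_norm n hz, gg_one hN h]
  simp

theorem tf_norm_le (N n : ℕ) (z : ℂ) : ‖tf N n z‖ₑ ^ 2 ≤ 1 := by
  by_cases hz : z = 0
  · have : tf N n z = 0 := tf_zero (by rw [hz, norm_zero]; positivity)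
    rw [this]; simp
  · rw [enorm_sq]
    unfold tf
    rw [norm_mul, ww_norm n hz, Complex.norm_real, Real.norm_eq_abs, abs_of_nonneg (gg_nonneg _ _)]
    rw [mul_one, ← ENNReal.ofReal_one]
    apply ENNReal.ofReal_le_ofReal
    exact pow_le_one₀ (gg_nonneg _ _) (gg_le_one _)

theorem pi_nn : (NNReal.pi : ENNReal) = ENNReal.ofReal Real.pi := by
  rw [← NNReal.coe_real_pi, ENNReal.ofReal_coe_nnreal]

theorem tf_mass_ge {N n : ℕ} (hN : 1 ≤ N) :
    ENNReal.ofReal (Real.pi / 16) ≤ ∫⁻ z in ball (0:ℂ) 1, ‖tf N n z‖ₑ ^ 2 := by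
  have hsub : ball (3/4 : ℂ) (1/4) ⊆ ball (0:ℂ) 1 := by
    intro z hz
    rw [mem_ball, dist_eq_norm] at hz
    rw [mem_ball_zero_iff]
    have h1 : ‖z‖ ≤ ‖z - 3/4‖ + ‖(3/4:ℂ)‖ := by
      have := norm_add_le (z - 3/4) (3/4)
      rwa [sub_add_cancel] at this
    have h2 : ‖(3/4:ℂ)‖ = 3/4 := by
      rw [norm_div]; simp
    rw [h2] at h1
    linarith
  calc ENNReal.ofReal (Real.pi / 16) = ∫⁻ z in ball (3/4 : ℂ) (1/4), 1 := by
        rw [setLIntegral_const, one_mul, Complex.volume_ball, pi_nn,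
          ← ENNReal.ofReal_pow (by norm_num), ← ENNReal.ofReal_mul (by norm_num)]
        congr 1; ring
    _ = ∫⁻ z in ball (3/4 : ℂ) (1/4), ‖tf N n z‖ₑ ^ 2 := by
        apply setLIntegral_congr_fun measurableSet_ball
        intro z hz
        rw [mem_ball, dist_eq_norm] at hz
        have h2 : ‖(3/4:ℂ)‖ = 3/4 := by
          rw [norm_div]; simp
        have h1 : ‖(3/4:ℂ)‖ ≤ ‖z - 3/4‖ + ‖z‖ := by
          have := norm_sub_le z (z - 3/4)
          rw [sub_sub_cancel] at this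
          linarith
        rw [h2] at h1
        exact (tf_norm_one hN (by linarith)).symm
    _ ≤ _ := lintegral_mono_set hsub

theorem tf_mass_lt (N n : ℕ) : ∫⁻ z in ball (0:ℂ) 1, ‖tf N n z‖ₑ ^ 2 ≠ ⊤ := by
  have h : ∫⁻ z in ball (0:ℂ) 1, ‖tf N n z‖ₑ ^ 2 ≤ ∫⁻ z in ball (0:ℂ) 1, 1 :=
    lintegral_mono fun z => tf_norm_le N n z
  refine ne_top_of_le_ne_top ?_ h
  rw [setLIntegral_const, one_mul]
  exact measure_ball_lt_top.ne

/-! ### Geometry of the ellipse -/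

/-- the linear map straightening the ellipse -/
noncomputable def strt (ε : ℝ) : ℂ →ₗ[ℝ] ℂ where
  toFun z := ⟨z.re / (4 / 5), z.im / ε⟩
  map_add' z w := by apply Complex.ext <;> simp [add_div]
  map_smul' c z := by apply Complex.ext <;> simp [mul_div_assoc]

theorem ell_pre (ε : ℝ) : ell ε = strt ε ⁻¹' ball (0:ℂ) 1 := by
  ext z
  show rho ε z < 1 ↔ strt ε z ∈ ball (0:ℂ) 1
  unfold rho
  exact mem_disk.symm

theorem strt_det (ε : ℝ) : LinearMap.det (strt ε) = (5 / 4) * ε⁻¹ := by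
  rw [← LinearMap.det_toMatrix Complex.basisOneI, Matrix.det_fin_two]
  simp [LinearMap.toMatrix_apply, strt, Complex.coe_basisOneI_repr, Complex.coe_basisOneI]

theorem ell_vol {ε : ℝ} (hε : 0 < ε) : volume (ell ε) = ENNReal.ofReal (4 / 5 * ε * Real.pi) := by
  rw [ell_pre, Measure.addHaar_preimage_linearMap _ (by rw [strt_det]; positivity), strt_det,
    Complex.volume_ball, pi_nn]
  have h : |(5 / 4 * ε⁻¹)⁻¹| = 4 / 5 * ε := by
    rw [mul_inv, inv_inv, abs_of_pos (by positivity)]; norm_num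
  rw [h, ENNReal.ofReal_one, one_pow, one_mul, ← ENNReal.ofReal_mul (by positivity)]

theorem ell_convex (ε : ℝ) : Convex ℝ (ell ε) := by
  rw [ell_pre]
  exact (convex_ball _ _).linear_preimage _

theorem ell_zero (ε : ℝ) : (0:ℂ) ∈ ell ε := by
  show rho ε 0 < 1
  simp [rho]

theorem ell_closure {ε : ℝ} (hε0 : 0 < ε) (hε : ε ≤ 4 / 5) : closure (ell ε) ⊆ ball (0:ℂ) 1 := by
  intro z hz
  have h0 : closure (ell ε) ⊆ {z | rho ε z ≤ 1} :=
    closure_lt_subset_le (rho_smooth ε).continuous continuous_const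
  have h1 := norm_le_rho hε0 hε z
  have h2 : rho ε z ≤ 1 := h0 hz
  rw [mem_ball_zero_iff, ← sq_lt_one_iff₀ (norm_nonneg _)]
  nlinarith

theorem rho_deriv (ε : ℝ) (z : ℂ) : fderiv ℝ (rho ε) z z = 2 * rho ε z := by
  have h1 : HasFDerivAt (fun w : ℂ => (w.re / (4/5)) ^ 2 + (w.im / ε) ^ 2)
      ((2 * (z.re / (4/5))) • ((4/5 : ℝ)⁻¹ • Complex.reCLM) +
        (2 * (z.im / ε)) • ((ε)⁻¹ • Complex.imCLM)) z := by
    have a1 := ((Complex.reCLM.hasFDerivAt (x := z)).const_smul ((4/5:ℝ)⁻¹)).pow 2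
    have a2 := ((Complex.imCLM.hasFDerivAt (x := z)).const_smul (ε⁻¹)).pow 2
    have a3 := a1.add a2
    have e : (fun w : ℂ => (w.re / (4/5)) ^ 2 + (w.im / ε) ^ 2) =
        (((4/5:ℝ)⁻¹ • (Complex.reCLM : ℂ → ℝ)) ^ 2 + (ε⁻¹ • (Complex.imCLM : ℂ → ℝ)) ^ 2) := by
      ext w
      simp [div_eq_inv_mul]
    rw [e]
    refine a3.congr_fderiv ?_
    ext <;> simp [div_eq_inv_mul]
  have h2 : fderiv ℝ (rho ε) z = _ := h1.fderiv
  rw [h2]
  simp [rho]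
  ring

end Pool.Agent.V1186.Mag
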